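import Pool.Agent.H42.LO.BorrSol

set_option autoImplicit false

/-!
# Surgeries on the Borromean rings with a left-orderable quotient of the fundamental group

Let `r 0, r 1, r 2` be rational numbers.  Suppose that two of them have the same sign and a
product smaller than `4`, and that the third one is smaller than `1` if the two are positive, and
larger than `-1` if the two are negative.  Then the fundamental group of the
`(r 0, r 1, r 2)`-surgery on the Borromean rings has a left-orderable quotient.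

Idea.  We look for representations to the group of order automorphisms of the line which lift the
action of real two by two matrices on the directions of the plane.  Two of the meridians,
`x` and `y`, are hyperbolic and the third, `z`, is elliptic.  With three suitable parameters
`n, m, R` the matrices

`X ~ (1 + n, m; -m, 1 - n)`, `Y ~ (1 + p, q + m; q - m, 1 - p)`, `Z ~ (1, -R; R, 1)`,
`p = m (R + m) / n`, `q = - m (1 - m R) / n`,

satisfy the relations of the link group, and the longitudes have simple formulas.  In terms of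
`tanh a`, `tanh b`, `tan w` (half translation lengths, half rotation angle) the slope equations
become `tanh a * tanh (α a) = tanh b * tanh (β b) = tan w * tan (c w)` and
`sinh (2 a) sinh (2 b) (sin w)² = sinh (2 α a) sinh (2 β b) (cos (c w))²`, where `2 α`, `2 β` are
the absolute values of the slopes of `x` and `y`, and `c w` is `γ w` or `τ (π - w)`, depending on
the slope of `z`.  The first two equations define `a` and `b` as functions of `w`, and the last one
is solved by the intermediate value theorem.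
-/

namespace Pool.Agent.Results.MP_3d425c_gt.BorromeanLeftOrderedQuotients

open Pool.Agent.H42.LO

/-- Wirtinger generators of the standard diagram of the Borromean rings by three round circles
`0, 1, 2`, any two of which meet in one point inside and one point outside the third circle;
circle `i + 2` passes over circle `i` at both crossings.  `arc i false` is the meridian of the
arc of circle `i` through its outer crossing with circle `i + 1`, and `arc i true` the one of
the arc through its inner crossing with circle `i + 1`. -/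
def arc (i : Fin 3) (b : Bool) : FreeGroup (Fin 3 × Bool) := FreeGroup.of (i, b)

/-- The (preferred, 0-framed) longitude of circle `i`, which passes under the inner and then
under the outer arc of circle `i + 2`, with opposite signs. -/
def longitude (i : Fin 3) : FreeGroup (Fin 3 × Bool) :=
  arc (i + 2) true * (arc (i + 2) false)⁻¹

/-- The relators: the Wirtinger relators of the six crossings and the three surgery relators
`meridian ^ p * longitude ^ q`. -/
def relators (p q : Fin 3 → ℤ) : Set (FreeGroup (Fin 3 × Bool)) :=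
  {w | ∃ i : Fin 3,
    w = (arc (i + 2) true)⁻¹ * arc i false * arc (i + 2) true * (arc i true)⁻¹ ∨
    w = arc (i + 2) false * arc i true * (arc (i + 2) false)⁻¹ * (arc i false)⁻¹ ∨
    w = arc i false ^ p i * longitude i ^ q i}

/-- The fundamental group of the closed 3-manifold obtained from the Borromean rings by surgery
with slope `p i / q i` on component `i`. -/
abbrev SurgeryGroup (p q : Fin 3 → ℤ) : Type := PresentedGroup (relators p q)

/-! ## Homomorphisms from the surgery group -/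

/-- The (inner) longitude in terms of the inner meridians. -/
def lon {H : Type*} [Group H] (v w : H) : H := v * w⁻¹ * v⁻¹ * w

theorem hom_of_fun {H : Type*} [Group H] {p q : Fin 3 → ℤ} (u : Fin 3 → H)
    (hc : ∀ i, Commute (u i) (lon (u (i + 1)) (u (i + 2))))
    (hs : ∀ i, u i ^ p i * lon (u (i + 1)) (u (i + 2)) ^ q i = 1) :
    ∃ f : SurgeryGroup p q →* H, ∀ i, f (PresentedGroup.of (i, true)) = u i := by
  classical
  let g : Fin 3 × Bool → H := fun x =>
    if x.2 then u x.1 else u (x.1 + 2) * u x.1 * (u (x.1 + 2))⁻¹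
  have gt : ∀ i, g (i, true) = u i := fun i => rfl
  have gf : ∀ i, g (i, false) = u (i + 2) * u i * (u (i + 2))⁻¹ := fun i => rfl
  have h22 : ∀ i : Fin 3, i + 2 + 2 = i + 1 := by decide
  have h12 : ∀ i : Fin 3, i + 1 + 2 = i := by decide
  have hrel : ∀ r ∈ relators p q, FreeGroup.lift g r = 1 := by
    rintro r ⟨i, hr | hr | hr⟩
    · rw [hr]
      simp only [arc, map_mul, map_inv, FreeGroup.lift_apply_of, gt, gf]
      group
    · rw [hr]
      simp only [arc, map_mul, map_inv, FreeGroup.lift_apply_of, gt, gf, h22]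
      have h1 := hc i
      set a := u i
      set v := u (i + 1)
      set w := u (i + 2)
      have h2 : a * (v * w⁻¹ * v⁻¹ * w) = (v * w⁻¹ * v⁻¹ * w) * a := h1.eq
      have h3 : (v * w * v⁻¹) * a * (v * w * v⁻¹)⁻¹ = w * a * w⁻¹ := by
        calc (v * w * v⁻¹) * a * (v * w * v⁻¹)⁻¹
            = (v * w * v⁻¹) * (a * (v * w⁻¹ * v⁻¹ * w)) * w⁻¹ := by group
          _ = (v * w * v⁻¹) * ((v * w⁻¹ * v⁻¹ * w) * a) * w⁻¹ := by rw [h2]
          _ = w * a * w⁻¹ := by group
      rw [h3, mul_inv_cancel]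
    · rw [hr]
      simp only [arc, longitude, map_mul, map_inv, map_zpow, FreeGroup.lift_apply_of, gt, gf, h22]
      have h1 := hs i
      set a := u i
      set v := u (i + 1)
      set w := u (i + 2)
      have h2 : w * (v * w * v⁻¹)⁻¹ = w * lon v w * w⁻¹ := by
        simp only [lon]; group
      rw [h2, conj_zpow, conj_zpow]
      calc w * a ^ p i * w⁻¹ * (w * lon v w ^ q i * w⁻¹)
          = w * (a ^ p i * lon v w ^ q i) * w⁻¹ := by group
        _ = 1 := by rw [h1]; group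
  refine ⟨PresentedGroup.toGroup hrel, fun i => ?_⟩
  rw [PresentedGroup.toGroup.of]
  exact gt i

theorem fin_cases3 : ∀ k i : Fin 3, i = k ∨ i = k + 1 ∨ i = k + 2 := by decide
theorem fin_e1 : ∀ k : Fin 3, k + 1 + 1 = k + 2 := by decide
theorem fin_e2 : ∀ k : Fin 3, k + 1 + 2 = k := by decide
theorem fin_e3 : ∀ k : Fin 3, k + 2 + 1 = k := by decide
theorem fin_e4 : ∀ k : Fin 3, k + 2 + 2 = k + 1 := by decide
theorem fin_n1 : ∀ k : Fin 3, k + 1 ≠ k := by decide
theorem fin_n2 : ∀ k : Fin 3, k + 2 ≠ k := by decide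
theorem fin_n3 : ∀ k : Fin 3, k + 2 ≠ k + 1 := by decide

theorem hom_of_cyc {H : Type*} [Group H] {p q : Fin 3 → ℤ} (k : Fin 3) (x y z : H)
    (cx : Commute x (lon y z)) (cy : Commute y (lon z x)) (cz : Commute z (lon x y))
    (sx : x ^ p (k + 1) * lon y z ^ q (k + 1) = 1)
    (sy : y ^ p (k + 2) * lon z x ^ q (k + 2) = 1)
    (sz : z ^ p k * lon x y ^ q k = 1) :
    ∃ f : SurgeryGroup p q →* H, f (PresentedGroup.of (k, true)) = z := by
  have main : ∀ u : Fin 3 → H, u k = z → u (k + 1) = x → u (k + 2) = y →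
      ∃ f : SurgeryGroup p q →* H, f (PresentedGroup.of (k, true)) = z := by
    intro u h0 h1 h2
    have hcase := fin_cases3 k
    have e1 := fin_e1 k
    have e2 := fin_e2 k
    have e3 := fin_e3 k
    have e4 := fin_e4 k
    obtain ⟨f, hf⟩ := hom_of_fun (p := p) (q := q) u
      (by
        intro i
        rcases hcase i with h | h | h
        · rw [h, h0, h1, h2]; exact cz
        · rw [h, e1, e2, h0, h1, h2]; exact cx
        · rw [h, e3, e4, h0, h1, h2]; exact cy)
      (by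
        intro i
        rcases hcase i with h | h | h
        · rw [h, h0, h1, h2]; exact sz
        · rw [h, e1, e2, h0, h1, h2]; exact sx
        · rw [h, e3, e4, h0, h1, h2]; exact sy)
    exact ⟨f, by rw [hf, h0]⟩
  apply main (fun i => if i = k then z else if i = k + 1 then x else y)
  · simp
  · have := fin_n1 k
    simp [this]
  · have h1 := fin_n2 k
    have h2 := fin_n3 k
    simp only [h1, h2, if_false]

/-- A group with a nontrivial homomorphism to a left-orderable group has a left-orderable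
quotient. -/
theorem quotient_of_hom {G : Type} [Group G] {H : Type} [Group H] (hH : LeftOrderable H)
    (f : G →* H) {g : G} (hg : f g ≠ 1) :
    ∃ (Q : Type) (_ : Group Q) (φ : G →* Q), Function.Surjective φ ∧ LeftOrderable Q := by
  refine ⟨f.range, inferInstance, f.rangeRestrict, f.rangeRestrict_surjective, ?_, ?_⟩
  · refine ⟨⟨⟨f g, g, rfl⟩, 1, ?_⟩⟩
    intro h
    exact hg (congrArg Subtype.val h)
  · obtain ⟨-, lt, hlt, hinv⟩ := hH
    refine ⟨fun a b => lt a.1 b.1, ?_, fun a b c => hinv a.1 b.1 c.1⟩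
    exact {
      trichotomous := fun a b hab hba => Subtype.ext (hlt.trichotomous a.1 b.1 hab hba)
      irrefl := fun a => hlt.irrefl a.1
      trans := fun a b c => hlt.trans a.1 b.1 c.1 }

theorem int_leftOrderable : LeftOrderable (Multiplicative ℤ) := by
  refine ⟨inferInstance, fun a b => a < b, ?_, fun a b c => ?_⟩
  · infer_instance
  · exact (mul_lt_mul_iff_left c).symm

theorem zero_case {p q : Fin 3 → ℤ} (k : Fin 3) (hk : p k = 0) :
    ∃ (Q : Type) (_ : Group Q) (φ : SurgeryGroup p q →* Q),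
      Function.Surjective φ ∧ LeftOrderable Q := by
  obtain ⟨f, hf⟩ := hom_of_cyc (p := p) (q := q) k (1 : Multiplicative ℤ) 1
    (Multiplicative.ofAdd 1) (Commute.all _ _) (Commute.all _ _) (Commute.all _ _)
    (by simp [lon]) (by simp [lon]) (by simp [lon, hk])
  apply quotient_of_hom int_leftOrderable f (g := PresentedGroup.of (k, true))
  rw [hf]
  decide

/-! ## The main argument -/

open Real in
theorem K_aux {P Q R S : ℝ} (hR : R ≠ 0) (hS1 : S ^ 2 ≠ 1)
    (h : (P ^ 2 - S ^ 2) * (Q ^ 2 - S ^ 2) * (R ^ 2 + S ^ 2) =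
      S ^ 2 * ((1 - P ^ 2) * (1 - Q ^ 2) * (1 + R ^ 2))) :
    (P ^ 2 + (S / R) ^ 2) * (Q ^ 2 + (S / R) ^ 2) =
      (S / R) ^ 2 * (1 + (S / R) ^ 2) * (1 + R ^ 2) := by
  have h1 : (S ^ 2 - 1) * (S ^ 4 + (1 + R ^ 2 - P ^ 2 - Q ^ 2) * S ^ 2 -
      P ^ 2 * Q ^ 2 * R ^ 2) = 0 := by
    linear_combination h
  have h2 : S ^ 4 + (1 + R ^ 2 - P ^ 2 - Q ^ 2) * S ^ 2 - P ^ 2 * Q ^ 2 * R ^ 2 = 0 := by
    rcases mul_eq_zero.1 h1 with h3 | h3
    · exact absurd (by linarith) hS1
    · exact h3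
  field_simp
  linear_combination (- R ^ 2) * h2

theorem prod_aux {P Q R S tA tB tc ca cb cw cA cB cC : ℝ} (hP : 0 < P) (hQ : 0 < Q)
    (hca : 0 < ca) (hcb : 0 < cb) (hcw : 0 < cw) (hcA : 0 < cA) (hcB : 0 < cB)
    (hcC : 0 < cC) (hTa : P * tA = S) (hTb : Q * tB = S) (hS : S = R * tc)
    (qa : ca ^ 2 * (1 - P ^ 2) = 1) (qb : cb ^ 2 * (1 - Q ^ 2) = 1)
    (qw : cw ^ 2 * (1 + R ^ 2) = 1) (qA : cA ^ 2 * (1 - tA ^ 2) = 1)
    (qB : cB ^ 2 * (1 - tB ^ 2) = 1) (qc : cC ^ 2 * (1 + tc ^ 2) = 1)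
    (heq : P * Q * R ^ 2 * (ca ^ 2 * cb ^ 2 * cw ^ 2) =
      tA * tB * (cA ^ 2 * cB ^ 2 * cC ^ 2)) :
    (P ^ 2 - S ^ 2) * (Q ^ 2 - S ^ 2) * (R ^ 2 + S ^ 2) =
      S ^ 2 * ((1 - P ^ 2) * (1 - Q ^ 2) * (1 + R ^ 2)) := by
  have g1 : P ^ 2 - S ^ 2 = P ^ 2 * (1 - tA ^ 2) := by rw [← hTa]; ring
  have g2 : Q ^ 2 - S ^ 2 = Q ^ 2 * (1 - tB ^ 2) := by rw [← hTb]; ring
  have g3 : R ^ 2 + S ^ 2 = R ^ 2 * (1 + tc ^ 2) := by rw [hS]; ring
  have g4 : S ^ 2 = P * Q * (tA * tB) := by
    calc S ^ 2 = S * S := sq S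
      _ = (P * tA) * (Q * tB) := by rw [hTa, hTb]
      _ = _ := by ring
  obtain ⟨D, hD⟩ : ∃ D : ℝ, D = ca ^ 2 * cb ^ 2 * cw ^ 2 := ⟨_, rfl⟩
  obtain ⟨E, hE⟩ : ∃ E : ℝ, E = cA ^ 2 * cB ^ 2 * cC ^ 2 := ⟨_, rfl⟩
  have hD0 : D ≠ 0 := by rw [hD]; positivity
  have hE0 : E ≠ 0 := by rw [hE]; positivity
  have k1 : (P ^ 2 - S ^ 2) * (Q ^ 2 - S ^ 2) * (R ^ 2 + S ^ 2) * E =
      P ^ 2 * Q ^ 2 * R ^ 2 := by
    rw [g1, g2, g3, hE]
    calc P ^ 2 * (1 - tA ^ 2) * (Q ^ 2 * (1 - tB ^ 2)) * (R ^ 2 * (1 + tc ^ 2)) *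
        (cA ^ 2 * cB ^ 2 * cC ^ 2)
        = P ^ 2 * Q ^ 2 * R ^ 2 * (cA ^ 2 * (1 - tA ^ 2)) *
          (cB ^ 2 * (1 - tB ^ 2)) * (cC ^ 2 * (1 + tc ^ 2)) := by ring
      _ = _ := by rw [qA, qB, qc]; ring
  have k2 : (1 - P ^ 2) * (1 - Q ^ 2) * (1 + R ^ 2) * D = 1 := by
    rw [hD]
    calc (1 - P ^ 2) * (1 - Q ^ 2) * (1 + R ^ 2) * (ca ^ 2 * cb ^ 2 * cw ^ 2)
        = (ca ^ 2 * (1 - P ^ 2)) * (cb ^ 2 * (1 - Q ^ 2)) * (cw ^ 2 * (1 + R ^ 2)) := by ring
      _ = 1 := by rw [qa, qb, qw]; ring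
  rw [← hD, ← hE] at heq
  have ne : P * Q * D * E ≠ 0 :=
    mul_ne_zero (mul_ne_zero (mul_ne_zero hP.ne' hQ.ne') hD0) hE0
  apply mul_right_cancel₀ ne
  calc (P ^ 2 - S ^ 2) * (Q ^ 2 - S ^ 2) * (R ^ 2 + S ^ 2) * (P * Q * D * E)
      = ((P ^ 2 - S ^ 2) * (Q ^ 2 - S ^ 2) * (R ^ 2 + S ^ 2) * E) * (P * Q) * D := by ring
    _ = P ^ 2 * Q ^ 2 * (P * Q * R ^ 2 * D) := by rw [k1]; ring
    _ = P ^ 2 * Q ^ 2 * (tA * tB * E) * 1 := by rw [heq]; ring
    _ = P ^ 2 * Q ^ 2 * (tA * tB * E) * ((1 - P ^ 2) * (1 - Q ^ 2) * (1 + R ^ 2) * D) := by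
        rw [k2]
    _ = _ := by rw [g4]; ring

open Real in
theorem core {α β ε : ℝ} (hε : ε = 1 ∨ ε = -1) (hα : 0 < α) (hβ : 0 < β) (hαβ : α * β < 1)
    {c : ℝ → ℝ} {w₁ δ : ℝ} (hw0 : 0 < w₁) (hw1 : w₁ < π / 2) (hc : Continuous c) (hc0 : 0 ≤ c 0)
    (hcpos : ∀ w, 0 < w → w ≤ w₁ → 0 < c w) (hsum : ∀ w, 0 ≤ w → w < w₁ → w + c w < π / 2)
    (hsum1 : w₁ + c w₁ = π / 2) (hδ : δ = 0 ∨ δ = π) {p q : Fin 3 → ℤ} (k : Fin 3)
    (hx : (p (k + 1) : ℝ) = -(2 * (ε * α)) * q (k + 1))
    (hy : (p (k + 2) : ℝ) = -(2 * (ε * β)) * q (k + 2))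
    (hz : ∀ w, 0 < w → w < w₁ → (p k : ℝ) * (w - δ) = 2 * (ε * c w) * q k) :
    ∃ (Q : Type) (_ : Group Q) (φ : SurgeryGroup p q →* Q),
      Function.Surjective φ ∧ LeftOrderable Q := by
  obtain ⟨a, b, w, ha, hb, hw, hww, hS0, hS1, hTa, hTb, heq⟩ :=
    exists_sol hα hβ hαβ hw0 hw1 hc hc0 hcpos hsum hsum1
  set S := tan w * tan (c w) with hS
  have hcw0 := hcpos w hw hww.le
  have hcw1 := hsum w hw.le hww
  have hcw2 : c w < π / 2 := by linarith
  have cosw : 0 < cos w := Real.cos_pos_of_mem_Ioo ⟨by linarith, by linarith⟩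
  have cosc : 0 < cos (c w) := Real.cos_pos_of_mem_Ioo ⟨by linarith, hcw2⟩
  have cosha := Real.cosh_pos a
  have coshb := Real.cosh_pos b
  have coshA := Real.cosh_pos (α * a)
  have coshB := Real.cosh_pos (β * b)
  have tw : 0 < tan w := Real.tan_pos_of_pos_of_lt_pi_div_two hw (by linarith)
  have hP0 := tanh_pos' ha
  have hQ0 := tanh_pos' hb
  have hA0 := tanh_pos' (mul_pos hα ha)
  have hB0 := tanh_pos' (mul_pos hβ hb)
  have hA1 := tanh_lt_one' (α * a)
  have hB1 := tanh_lt_one' (β * b)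
  have ea : sinh a = cosh a * tanh a := by
    rw [Real.tanh_eq_sinh_div_cosh]; field_simp
  have eb : sinh b = cosh b * tanh b := by
    rw [Real.tanh_eq_sinh_div_cosh]; field_simp
  have eA : sinh (α * a) = cosh (α * a) * tanh (α * a) := by
    rw [Real.tanh_eq_sinh_div_cosh]; field_simp
  have eB : sinh (β * b) = cosh (β * b) * tanh (β * b) := by
    rw [Real.tanh_eq_sinh_div_cosh]; field_simp
  have ew : sin w = cos w * tan w := by
    rw [Real.tan_eq_sin_div_cos]; field_simp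
  have ec : sin (c w) = cos (c w) * tan (c w) := by
    rw [Real.tan_eq_sin_div_cos]; field_simp
  set P := tanh a with hP
  set Q := tanh b with hQ
  set tA := tanh (α * a) with htA
  set tB := tanh (β * b) with htB
  set R := tan w with hR
  set tc := tan (c w) with htc
  have hTa' : P * tA = S := hTa
  have hTb' : Q * tB = S := hTb
  -- the relation between the parameters
  have qa : cosh a ^ 2 * (1 - P ^ 2) = 1 := by
    linear_combination (1 : ℝ) * Real.cosh_sq a + (sinh a + cosh a * P) * ea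
  have qb : cosh b ^ 2 * (1 - Q ^ 2) = 1 := by
    linear_combination (1 : ℝ) * Real.cosh_sq b + (sinh b + cosh b * Q) * eb
  have qA : cosh (α * a) ^ 2 * (1 - tA ^ 2) = 1 := by
    linear_combination (1 : ℝ) * Real.cosh_sq (α * a) + (sinh (α * a) + cosh (α * a) * tA) * eA
  have qB : cosh (β * b) ^ 2 * (1 - tB ^ 2) = 1 := by
    linear_combination (1 : ℝ) * Real.cosh_sq (β * b) + (sinh (β * b) + cosh (β * b) * tB) * eB
  have qw : cos w ^ 2 * (1 + R ^ 2) = 1 := by
    linear_combination Real.sin_sq_add_cos_sq w - (sin w + cos w * R) * ew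
  have qc : cos (c w) ^ 2 * (1 + tc ^ 2) = 1 := by
    linear_combination Real.sin_sq_add_cos_sq (c w) - (sin (c w) + cos (c w) * tc) * ec
  have heq2 : P * Q * R ^ 2 * (cosh a ^ 2 * cosh b ^ 2 * cos w ^ 2) =
      tA * tB * (cosh (α * a) ^ 2 * cosh (β * b) ^ 2 * cos (c w) ^ 2) := by
    rw [Real.sinh_two_mul, Real.sinh_two_mul, Real.sinh_two_mul, Real.sinh_two_mul, ea, eb, eA,
      eB, ew] at heq
    linear_combination heq / 4
  have hprod := prod_aux hP0 hQ0 cosha coshb cosw coshA coshB cosc hTa' hTb' hS qa qb qw qA qB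
    qc heq2
  have hK := K_aux tw.ne' (pow_lt_one₀ hS0.le hS1 two_ne_zero).ne hprod
  have hSP : S < P := by rw [← hTa']; exact mul_lt_of_lt_one_right hP0 hA1
  have hSQ : S < Q := by rw [← hTb']; exact mul_lt_of_lt_one_right hQ0 hB1
  have hwδ : sin (w - δ) = cos (w - δ) * R := by
    rcases hδ with h | h
    · rw [h, sub_zero]; exact ew
    · rw [h, Real.sin_sub_pi, Real.cos_sub_pi, ew]; ring
  obtain ⟨U, V, hU, hV, e1, e2, e3⟩ := rep (P := P) (Q := Q) (R := R) (S := S) (a := a) (b := b)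
    (w := w - δ) (A := α * a) (B := β * b) (C := c w) hε hP0 hQ0 tw hS0 hSP hSQ
    (tanh_lt_one' a) ea eb hwδ
    (by rw [eA, ← hTa']; ring) (by rw [eB, ← hTb']; ring)
    (by rw [ec, hS]; ring) hcw0 hcw2 hK
  have cx : Commute (hl U hU a) (lon (hl V hV b) (sh (w - δ))) := by
    simp only [lon]; rw [e1]; exact hl_comm hU _ _
  have cy : Commute (hl V hV b) (lon (sh (w - δ)) (hl U hU a)) := by
    simp only [lon]; rw [e2]; exact hl_comm hV _ _
  have cz : Commute (sh (w - δ)) (lon (hl U hU a) (hl V hV b)) := by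
    simp only [lon]; rw [e3]; exact sh_comm _ _
  obtain ⟨f, hf⟩ := hom_of_cyc (p := p) (q := q) k (hl U hU a) (hl V hV b) (sh (w - δ))
    cx cy cz
    (by
      simp only [lon]
      rw [e1, hl_zpow, hl_zpow, ← hl_add, hx]
      rw [show -(2 * (ε * α)) * (q (k + 1) : ℝ) * a + (q (k + 1) : ℝ) * (2 * (ε * (α * a))) = 0
        by ring, hl_zero])
    (by
      simp only [lon]
      rw [e2, hl_zpow, hl_zpow, ← hl_add, hy]
      rw [show -(2 * (ε * β)) * (q (k + 2) : ℝ) * b + (q (k + 2) : ℝ) * (2 * (ε * (β * b))) = 0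
        by ring, hl_zero])
    (by
      simp only [lon]
      rw [e3, sh_zpow, sh_zpow, ← sh_add, hz w hw hww]
      rw [show 2 * (ε * c w) * (q k : ℝ) + (q k : ℝ) * -(2 * (ε * c w)) = 0 by ring, sh_zero])
  apply quotient_of_hom orderIso_leftOrderable f (g := PresentedGroup.of (k, true))
  rw [hf]
  intro h
  have h1 := congrArg (fun g : ℝ ≃o ℝ => g 0) h
  simp only [sh_apply] at h1
  have h2 : w - δ = 0 := by
    have : (1 : ℝ ≃o ℝ) 0 = 0 := rfl
    rw [this] at h1; linarith
  rcases hδ with h3 | h3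
  · rw [h3] at h2; linarith
  · rw [h3] at h2; linarith [Real.pi_pos]

/-- Suppose that the slopes of two components have the same sign and a product smaller than `4`,
and that the slope of the third component is smaller than `1` if the two are positive, and larger
than `-1` if the two are negative.  Then the fundamental group of the surgery on the Borromean
rings has a left-orderable quotient. -/
theorem result (p q : Fin 3 → ℤ) (hq : ∀ i, 1 ≤ q i) (r : Fin 3 → ℚ)
    (hr : ∀ i, r i = (p i : ℚ) / q i) (k : Fin 3)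
    (h : (0 < r (k + 1) ∧ 0 < r (k + 2) ∧ r (k + 1) * r (k + 2) < 4 ∧ r k < 1) ∨
      (r (k + 1) < 0 ∧ r (k + 2) < 0 ∧ r (k + 1) * r (k + 2) < 4 ∧ -1 < r k)) :
    ∃ (Q : Type) (_ : Group Q) (φ : SurgeryGroup p q →* Q),
      Function.Surjective φ ∧ LeftOrderable Q := by
  have hpr : ∀ i, (p i : ℝ) = (r i : ℝ) * q i := by
    intro i
    have h1 : (q i : ℚ) ≠ 0 := by
      have := hq i
      exact_mod_cast (by omega : q i ≠ 0)
    have h2 : (p i : ℚ) = r i * q i := by rw [hr i]; field_simp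
    exact_mod_cast congrArg (fun t : ℚ => (t : ℝ)) h2
  obtain ⟨ε, hε, hx, hy, hxy, hz⟩ : ∃ ε : ℝ, (ε = 1 ∨ ε = -1) ∧ 0 < -ε * r (k + 1) ∧
      0 < -ε * r (k + 2) ∧ (r (k + 1) : ℝ) * r (k + 2) < 4 ∧ -ε * r k < 1 := by
    rcases h with ⟨h1, h2, h3, h4⟩ | ⟨h1, h2, h3, h4⟩
    · refine ⟨-1, Or.inr rfl, ?_, ?_, by exact_mod_cast h3, ?_⟩
      · have : (0 : ℝ) < r (k + 1) := by exact_mod_cast h1
        linarith
      · have : (0 : ℝ) < r (k + 2) := by exact_mod_cast h2
        linarith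
      · have : (r k : ℝ) < 1 := by exact_mod_cast h4
        linarith
    · refine ⟨1, Or.inl rfl, ?_, ?_, by exact_mod_cast h3, ?_⟩
      · have : (r (k + 1) : ℝ) < 0 := by exact_mod_cast h1
        linarith
      · have : (r (k + 2) : ℝ) < 0 := by exact_mod_cast h2
        linarith
      · have : (-1 : ℝ) < r k := by exact_mod_cast h4
        linarith
  have hε2 : ε * ε = 1 := by rcases hε with h | h <;> rw [h] <;> norm_num
  obtain ⟨α, hα⟩ : ∃ α : ℝ, α = -ε * r (k + 1) / 2 := ⟨_, rfl⟩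
  obtain ⟨β, hβ⟩ : ∃ β : ℝ, β = -ε * r (k + 2) / 2 := ⟨_, rfl⟩
  have hα0 : 0 < α := by rw [hα]; linarith
  have hβ0 : 0 < β := by rw [hβ]; linarith
  have hαβ : α * β < 1 := by
    have : α * β = (ε * ε) * (r (k + 1) * r (k + 2)) / 4 := by rw [hα, hβ]; ring
    rw [this, hε2]; linarith
  have hxp : (p (k + 1) : ℝ) = -(2 * (ε * α)) * q (k + 1) := by
    rw [hpr, hα]; linear_combination (-(r (k + 1) : ℝ) * q (k + 1)) * hε2
  have hyp : (p (k + 2) : ℝ) = -(2 * (ε * β)) * q (k + 2) := by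
    rw [hpr, hβ]; linear_combination (-(r (k + 2) : ℝ) * q (k + 2)) * hε2
  rcases lt_trichotomy (-ε * (r k : ℝ)) 0 with hneg | h0 | hpos
  · obtain ⟨γ, hγ⟩ : ∃ γ : ℝ, γ = ε * r k / 2 := ⟨_, rfl⟩
    have hγ0 : 0 < γ := by rw [hγ]; linarith
    have hpi := Real.pi_pos
    refine core (ε := ε) (c := fun w => γ * w) (w₁ := Real.pi / (2 * (1 + γ))) (δ := 0) hε hα0
      hβ0 hαβ (by positivity) ?_ (by fun_prop) (by simp) (fun w hw _ => mul_pos hγ0 hw) ?_ ?_
      (Or.inl rfl) k hxp hyp ?_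
    · rw [div_lt_div_iff₀ (by positivity) two_pos]
      nlinarith
    · intro w _ hw
      rw [lt_div_iff₀ (by positivity)] at hw
      linarith
    · field_simp
    · intro w _ _
      rw [hpr, hγ]
      linear_combination (-(r k : ℝ) * q k * w) * hε2
  · have h1 : (r k : ℝ) = 0 := by
      rcases hε with h | h
      · rw [h] at h0; linarith
      · rw [h] at h0; linarith
    have h2 : p k = 0 := by
      have := hpr k
      rw [h1, zero_mul] at this
      exact_mod_cast this
    exact zero_case k h2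
  · obtain ⟨τ, hτ⟩ : ∃ τ : ℝ, τ = -ε * r k / 2 := ⟨_, rfl⟩
    have hτ0 : 0 < τ := by rw [hτ]; linarith
    have hτ1 : τ < 1 / 2 := by rw [hτ]; linarith
    have hpi := Real.pi_pos
    have h1τ : 0 < 1 - τ := by linarith
    refine core (ε := ε) (c := fun w => τ * (Real.pi - w))
      (w₁ := Real.pi * (1 / 2 - τ) / (1 - τ)) (δ := Real.pi) hε hα0
      hβ0 hαβ (by apply div_pos (mul_pos hpi (by linarith)) h1τ) ?_ (by fun_prop) ?_ ?_ ?_ ?_
      (Or.inr rfl) k hxp hyp ?_
    · rw [div_lt_div_iff₀ h1τ two_pos]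
      nlinarith
    · simp only [sub_zero]; positivity
    · intro w _ hw
      apply mul_pos hτ0
      rw [le_div_iff₀ h1τ] at hw
      nlinarith
    · intro w _ hw
      rw [lt_div_iff₀ h1τ] at hw
      nlinarith
    · field_simp
      ring
    · intro w _ _
      rw [hpr, hτ]
      linear_combination (-(r k : ℝ) * q k * (w - Real.pi)) * hε2

end Pool.Agent.Results.MP_3d425c_gt.BorromeanLeftOrderedQuotients
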