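import Pool.Agent.H42.LK.Twist

set_option autoImplicit false

/-!
# Cyclic branched covers of links with three components and nonzero linking numbers

Let `L` be any link with three components in the 3-sphere with nonzero linking numbers
`l 0, l 1, l 2` (`l c` is the linking number of the components `c + 1` and `c + 2`).  A
homomorphism `ψ` from the link group to `ℤ / N` defines a cyclic cover of the 3-sphere branched
over `L`; let it take the meridian of the component `c` to the class of the integer `j c`.  The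
theorem: if one of the numbers `j c / l c` has the opposite sign of the two other ones and is
larger than the sum of the two other ones in absolute value, with fixed ratios of safety, and if
`|j c| / N` is small, then the fundamental group of the branched cover has a left-orderable
quotient.  In particular, if `j c = 1` for all `c`: the `N`-fold cyclic branched covers for all
large `N`, as soon as `1 / l k`, for some `k`, is larger than the sum of the two other ones in
absolute value and has the opposite sign of both.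

Idea.  For small `ε` we look for representations of the link group in `SL(2, ℝ)` such that all
meridians are rotations by small angles `ε j c`.  In first order in `ε` the equation for the
generators `Y c` of these rotations is `∑ Y c / l c = 0`: a triangle in the Lorentz plane with
timelike sides of lengths `j c / l c`.  Such triangles exist if the reversed triangle inequality
holds.  The solution extends to small `ε` by an implicit function argument.  For `ε = π / N` the
lift of the representation to the line restricts to the kernel of `ψ`, and multiplied by central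
shifts it takes the powers of the meridians in the kernel to the identity.
-/

namespace Pool.Agent.Results.MP_3d425c_gt.CyclicBranchedCovers

open Pool.Agent.H42.LO Pool.Agent.H42.ML Pool.Agent.H42.LK

/-- The normal subgroup generated by the powers of the meridians that lie in the kernel. -/
def branchSub {n : ℕ} (B : Braid n) (base : Fin 3 → Fin n) {N : ℕ}
    (ψ : B.LinkGroup →* Multiplicative (ZMod N)) : Subgroup B.LinkGroup :=
  Subgroup.normalClosure
    {x | ∃ (c : Fin 3) (e : ℤ), x = B.cls (FreeGroup.of (base c)) ^ e ∧ ψ x = 1}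

instance {n : ℕ} (B : Braid n) (base : Fin 3 → Fin n) {N : ℕ}
    (ψ : B.LinkGroup →* Multiplicative (ZMod N)) : (branchSub B base ψ).Normal :=
  Subgroup.normalClosure_normal

/-- The fundamental group of the cover of the 3-sphere, branched over the closure of `B`, that is
defined by `ψ`. -/
abbrev BranchedGroup {n : ℕ} (B : Braid n) (base : Fin 3 → Fin n) {N : ℕ}
    (ψ : B.LinkGroup →* Multiplicative (ZMod N)) : Type :=
  ψ.ker ⧸ (branchSub B base ψ).subgroupOf ψ.ker

variable {n : ℕ} {B : Braid n} {base : Fin 3 → Fin n}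

theorem psi_word (hb : B.IsBase base) {N : ℕ} {ψ : B.LinkGroup →* Multiplicative (ZMod N)}
    {j : Fin 3 → ℤ} (hψ : ∀ c, ψ (B.cls (FreeGroup.of (base c))) =
      Multiplicative.ofAdd ((j c : ℤ) : ZMod N)) (v : FreeGroup (Fin n)) :
    ψ (B.cls v) = Multiplicative.ofAdd ((wsum B base j v : ℤ) : ZMod N) := by
  have hmul : ∀ v w, B.cls (v * w) = B.cls v * B.cls w := fun v w => map_mul _ _ _
  have hinv : ∀ v, B.cls v⁻¹ = (B.cls v)⁻¹ := fun v => map_inv _ _
  have hrel : ∀ k, B.cls (B.u k) * B.cls (FreeGroup.of (B.s k)) * (B.cls (B.u k))⁻¹ =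
      B.cls (FreeGroup.of k) := by
    intro k
    rw [← hinv, ← hmul, ← hmul, ← mul_inv_eq_one, ← hinv, ← hmul]
    exact (QuotientGroup.eq_one_iff _).2 (Subgroup.subset_normalClosure ⟨k, rfl⟩)
  have hgen : ∀ k, ψ (B.cls (FreeGroup.of k)) = ψ (B.cls (FreeGroup.of (base (B.comp hb k)))) := by
    intro k
    have h1 := B.V_conj hb (PresentedGroup.mk B.linkRels) (fun k _ => hrel k) k
    have h2 : B.cls (B.V hb k) * B.cls (FreeGroup.of k) * (B.cls (B.V hb k))⁻¹ =
        B.cls (FreeGroup.of (base (B.comp hb k))) := h1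
    rw [← h2, map_mul, map_mul, map_inv, mul_comm, inv_mul_cancel_left]
  induction v using FreeGroup.induction_on with
  | C1 =>
    have : B.cls 1 = 1 := map_one _
    rw [this, map_one, wsum_one]; simp
  | of k =>
    show ψ (B.cls (FreeGroup.of k)) = _
    rw [hgen, hψ]
    show _ = Multiplicative.ofAdd ((wsum B base j (FreeGroup.of k) : ℤ) : ZMod N)
    rw [wsum_of B hb]
  | inv_of k ih =>
    show ψ (B.cls (FreeGroup.of k)⁻¹) =
      Multiplicative.ofAdd ((wsum B base j (FreeGroup.of k)⁻¹ : ℤ) : ZMod N)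
    rw [hinv, map_inv, hgen, hψ, wsum_inv, wsum_of B hb]
    simp
  | mul v w hv hw =>
    rw [hmul, map_mul, hv, hw, wsum_mul]
    push_cast
    rfl

theorem zero_case (hb : B.IsBase base) {l : Fin 3 → ℤ} (hl : ∀ c, l c ≠ 0)
    (hL : HasLinking B base l) {η : ℝ} (hη : 0 < η) :
    ∃ δ : ℝ, 0 < δ ∧ ∀ (N : ℕ) (j : Fin 3 → ℤ) (ψ : B.LinkGroup →* Multiplicative (ZMod N)),
      (∀ c, ψ (B.cls (FreeGroup.of (base c))) = Multiplicative.ofAdd ((j c : ℤ) : ZMod N)) →
      (∀ c, |(j c : ℝ)| < δ * N) → ConeAt η (fun c => (j c : ℝ) / l c) 0 →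
      ∃ f : ψ.ker →* (ℝ ≃o ℝ), (∀ x ∈ (branchSub B base ψ).subgroupOf ψ.ker, f x = 1) ∧
        ∃ y, f y ≠ 1 := by
  have hpi := Real.pi_pos
  have hl' : ∀ c, (l c : ℝ) ≠ 0 := fun c => by exact_mod_cast hl c
  obtain ⟨δ₀, hδ₀, hfam⟩ := unif hb hl' hL (κ := 0) (α := fun _ => 1) (β := fun _ => -1)
    (τ := fun c => (l c : ℝ)) (fun c => by norm_num) (Γ := 1) one_ne_zero
    (fun c => by ring) hη
  refine ⟨δ₀ / Real.pi, by positivity, fun N j ψ hψ hj hcone => ?_⟩
  have hN : (0 : ℝ) < N := by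
    have h1 := (abs_nonneg _).trans_lt (hj 0)
    have h2 : 0 < δ₀ / Real.pi := by positivity
    exact (pos_iff_pos_of_mul_pos h1).1 h2
  obtain ⟨b', hb'⟩ : ∃ b : Fin 3 → ℝ, b = fun c => (j c : ℝ) / l c := ⟨_, rfl⟩
  rw [← hb'] at hcone
  have hD0 : b' 0 ≠ 0 := by
    rintro h; have := hcone.opp; rw [h] at this; simp at this
  have hDpos : 0 < |b' 0| := abs_pos.2 hD0
  obtain ⟨M, hM⟩ : ∃ M : ℝ, M = |b' 0| := ⟨_, rfl⟩
  have hM0 : 0 < M := by rw [hM]; exact hDpos
  obtain ⟨b, hbd⟩ : ∃ b : Fin 3 → ℝ, b = fun c => b' c / M := ⟨_, rfl⟩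
  have hb0 : |b 0| = 1 := by
    rw [hbd]; simp only [abs_div]; rw [abs_of_pos hM0, hM, div_self hDpos.ne']
  have hbabs : ∀ c, |b c| = |b' c| / M := by
    intro c; rw [hbd]; simp only [abs_div]; rw [abs_of_pos hM0]
  have hcone' : ConeAt η b 0 := by
    obtain ⟨c1, c2, c3, c4, c5⟩ := hcone
    constructor
    · have : b (0 + 1) * b (0 + 2) = b' (0 + 1) * b' (0 + 2) / (M * M) := by
        rw [hbd]; field_simp
      rw [this]; positivity
    · have : b 0 * b (0 + 1) = b' 0 * b' (0 + 1) / (M * M) := by rw [hbd]; field_simp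
      rw [this]; exact div_neg_of_neg_of_pos c2 (by positivity)
    · rw [hbabs, hbabs, hbabs, ← add_div, mul_div_assoc']
      exact div_le_div_of_nonneg_right c3 hM0.le
    · rw [hbabs, hbabs, mul_div_assoc']
      exact div_le_div_of_nonneg_right c4 hM0.le
    · rw [hbabs, hbabs, mul_div_assoc']
      exact div_le_div_of_nonneg_right c5 hM0.le
  obtain ⟨ε, hε⟩ : ∃ ε : ℝ, ε = Real.pi * M / N := ⟨_, rfl⟩
  have hε0 : 0 < ε := by rw [hε]; positivity
  have hMj : M ≤ |(j 0 : ℝ)| := by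
    rw [hM, hb']
    simp only [abs_div]
    have : (1 : ℝ) ≤ |(l 0 : ℝ)| := by
      have h1 : 1 ≤ |l 0| := Int.one_le_abs (hl 0)
      exact_mod_cast h1
    exact div_le_self (abs_nonneg _) this
  have hε1 : ε < δ₀ := by
    have h1 := hMj.trans_lt (hj 0)
    rw [hε, div_lt_iff₀ hN]
    calc Real.pi * M < Real.pi * (δ₀ / Real.pi * N) := mul_lt_mul_of_pos_left h1 hpi
      _ = δ₀ * N := by field_simp
  obtain ⟨w, s, hw0, hcst, g, hact⟩ := hfam ε hε0 hε1 b hcone' hb0
  have hw : ∀ c, ε * w c = Real.pi * j c / N := by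
    intro c
    have h1 := hcst c
    have h2 : w c = l c * b c := by linear_combination h1
    have h3 := hl' c
    rw [h2, hε, hbd, hb']
    field_simp
  -- the action of the link group
  have hrel : ∀ r ∈ B.linkRels, FreeGroup.lift g r = 1 := by
    rintro r ⟨k, rfl⟩
    exact hact.rel k
  obtain ⟨ρ, hρ⟩ : ∃ ρ : B.LinkGroup →* (ℝ ≃o ℝ), ∀ v, ρ (B.cls v) = FreeGroup.lift g v :=
    ⟨PresentedGroup.toGroup hrel, fun v => rfl⟩
  have hsurj : ∀ x : B.LinkGroup, ∃ v, B.cls v = x := fun x => QuotientGroup.mk_surjective x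
  have hper : ∀ x t, ρ x (t + Real.pi) = ρ x t + Real.pi := by
    intro x t
    obtain ⟨v, rfl⟩ := hsurj x
    rw [hρ]; exact per_word hact.per v t
  have hJrel : ∀ r ∈ B.linkRels,
      FreeGroup.lift (fun k => Multiplicative.ofAdd (j (B.comp hb k))) r = 1 := by
    rintro r ⟨k, rfl⟩
    simp only [map_mul, map_inv, FreeGroup.lift_apply_of, B.comp_s hb k]
    rw [mul_comm, ← mul_assoc, mul_comm _ (Multiplicative.ofAdd (j (B.comp hb k)))]
    simp
  obtain ⟨J, hJ⟩ : ∃ J : B.LinkGroup →* Multiplicative ℤ, ∀ v,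
      J (B.cls v) = Multiplicative.ofAdd (wsum B base j v) := by
    refine ⟨PresentedGroup.toGroup hJrel, fun v => ?_⟩
    show FreeGroup.lift (fun k => Multiplicative.ofAdd (j (B.comp hb k))) v = _
    induction v using FreeGroup.induction_on with
    | C1 => rw [map_one, wsum_one]; rfl
    | of k =>
      show FreeGroup.lift _ (FreeGroup.of k) =
        Multiplicative.ofAdd (wsum B base j (FreeGroup.of k))
      rw [FreeGroup.lift_apply_of, wsum_of B hb]
    | inv_of k ih =>
      show FreeGroup.lift _ (FreeGroup.of k)⁻¹ =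
        Multiplicative.ofAdd (wsum B base j (FreeGroup.of k)⁻¹)
      rw [map_inv, FreeGroup.lift_apply_of, wsum_inv, wsum_of B hb]; rfl
    | mul v w hv hw => rw [map_mul, hv, hw, wsum_mul]; rfl
  have hNz : (N : ℤ) ≠ 0 := by
    have : (N : ℝ) ≠ 0 := hN.ne'
    exact_mod_cast this
  have hker : ∀ x : B.LinkGroup, ψ x = 1 → ∃ m : ℤ, (J x).toAdd = N * m := by
    intro x hx
    obtain ⟨v, rfl⟩ := hsurj x
    rw [psi_word hb hψ] at hx
    have h1 : ((wsum B base j v : ℤ) : ZMod N) = 0 := Multiplicative.ofAdd.injective hx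
    rw [ZMod.intCast_zmod_eq_zero_iff_dvd] at h1
    obtain ⟨m, hm⟩ := h1
    exact ⟨m, by rw [hJ]; exact hm⟩
  have hshN : ∀ m : ℤ, -(Real.pi * ((N * m : ℤ) : ℝ) / N) = Real.pi * ((-m : ℤ) : ℝ) := by
    intro m; push_cast; field_simp
  let f : ψ.ker →* (ℝ ≃o ℝ) :=
    { toFun := fun x => ρ x.1 * sh (-(Real.pi * ((J x.1).toAdd : ℤ) / N))
      map_one' := by
        show ρ 1 * sh (-(Real.pi * ((J 1).toAdd : ℤ) / N)) = 1
        rw [map_one, map_one]
        simp [sh_zero]
      map_mul' := by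
        rintro ⟨x, hx⟩ ⟨y, hy⟩
        show ρ (x * y) * sh (-(Real.pi * ((J (x * y)).toAdd : ℤ) / N)) =
          ρ x * sh (-(Real.pi * ((J x).toAdd : ℤ) / N)) *
            (ρ y * sh (-(Real.pi * ((J y).toAdd : ℤ) / N)))
        obtain ⟨m, hm⟩ := hker x hx
        obtain ⟨m', hm'⟩ := hker y hy
        rw [map_mul, map_mul, toAdd_mul, hm, hm', hshN, hshN,
          show (N : ℤ) * m + N * m' = N * (m + m') by ring, hshN,
          show Real.pi * ((-(m + m') : ℤ) : ℝ) = Real.pi * ((-m : ℤ) : ℝ) +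
            Real.pi * ((-m' : ℤ) : ℝ) by push_cast; ring, sh_add]
        have h1 := per_comm (hper y) (-m)
        calc ρ x * ρ y * (sh (Real.pi * ((-m : ℤ) : ℝ)) * sh (Real.pi * ((-m' : ℤ) : ℝ)))
            = ρ x * (ρ y * sh (Real.pi * ((-m : ℤ) : ℝ))) * sh (Real.pi * ((-m' : ℤ) : ℝ)) := by
              simp only [mul_assoc]
          _ = ρ x * (sh (Real.pi * ((-m : ℤ) : ℝ)) * ρ y) * sh (Real.pi * ((-m' : ℤ) : ℝ)) := by
              rw [h1]
          _ = _ := by simp only [mul_assoc] }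
  -- the subgroup of elements that act as a shift
  let K : Subgroup B.LinkGroup :=
    { carrier := {x | ∃ m : ℤ, (J x).toAdd = N * m ∧ ρ x = sh (Real.pi * m)}
      one_mem' := ⟨0, by simp, by simp [sh_zero]⟩
      mul_mem' := by
        rintro x y ⟨m, h1, h2⟩ ⟨m', h3, h4⟩
        refine ⟨m + m', ?_, ?_⟩
        · rw [map_mul, toAdd_mul, h1, h3]; ring
        · rw [map_mul, h2, h4, ← sh_add]; congr 1; push_cast; ring
      inv_mem' := by
        rintro x ⟨m, h1, h2⟩
        refine ⟨-m, ?_, ?_⟩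
        · rw [map_inv, toAdd_inv, h1]; ring
        · rw [map_inv, h2, ← sh_neg]; congr 1; push_cast; ring }
  have hKmem : ∀ x, x ∈ K ↔ ∃ m : ℤ, (J x).toAdd = N * m ∧ ρ x = sh (Real.pi * m) :=
    fun x => Iff.rfl
  have hKn : K.Normal := by
    refine ⟨fun x hx y => ?_⟩
    obtain ⟨m, h1, h2⟩ := (hKmem x).1 hx
    refine (hKmem _).2 ⟨m, ?_, ?_⟩
    · rw [map_mul J, map_mul J, map_inv J, toAdd_mul, toAdd_mul, toAdd_inv, ← h1]; ring
    · rw [map_mul, map_mul, map_inv, h2, per_comm (hper y), mul_assoc, mul_inv_cancel, mul_one]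
  have hbr : branchSub B base ψ ≤ K := by
    refine Subgroup.normalClosure_le_normal ?_
    rintro x ⟨c, e, hx, hx1⟩
    have hJc : (J (B.cls (FreeGroup.of (base c)))).toAdd = j c := by
      rw [hJ, wsum_of B hb, B.comp_base hb]; rfl
    obtain ⟨m, hm⟩ := hker x hx1
    refine (hKmem x).2 ⟨m, hm, ?_⟩
    rw [hx, map_zpow, toAdd_zpow, hJc, smul_eq_mul] at hm
    obtain ⟨f', hf', h1, -⟩ := hact.peri c
    rw [hx, map_zpow, hρ, FreeGroup.lift_apply_of, h1, conj_sh_zpow, hw]
    have h2 : (e : ℝ) * (Real.pi * j c / N) = Real.pi * m := by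
      have h3 : ((e * j c : ℤ) : ℝ) = ((N * m : ℤ) : ℝ) := by rw [hm]
      push_cast at h3
      rw [show (e : ℝ) * (Real.pi * j c / N) = Real.pi * (e * j c) / N by ring, h3]
      field_simp
    rw [h2, per_comm hf', mul_assoc, mul_inv_cancel, mul_one]
  refine ⟨f, fun x hx => ?_, ?_⟩
  · have h1 : x.1 ∈ K := hbr (Subgroup.mem_subgroupOf.1 hx)
    obtain ⟨m, h2, h3⟩ := (hKmem _).1 h1
    show ρ x.1 * sh (-(Real.pi * ((J x.1).toAdd : ℤ) / N)) = 1
    rw [h2, h3, hshN, ← sh_add]
    have : Real.pi * (m : ℝ) + Real.pi * ((-m : ℤ) : ℝ) = 0 := by push_cast; ring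
    rw [this, sh_zero]
  · have hmem : B.cls (FreeGroup.of (base 0)) * B.cls (FreeGroup.of (base 1)) *
        (B.cls (FreeGroup.of (base 0)))⁻¹ * (B.cls (FreeGroup.of (base 1)))⁻¹ ∈ ψ.ker := by
      rw [MonoidHom.mem_ker, map_mul, map_mul, map_mul, map_inv, map_inv,
        mul_comm (ψ (B.cls (FreeGroup.of (base 0))))]
      simp
    refine ⟨⟨_, hmem⟩, ?_⟩
    show ρ _ * sh (-(Real.pi * ((J _).toAdd : ℤ) / N)) ≠ 1
    rw [map_mul J, map_mul J, map_mul J, map_inv, map_inv, mul_comm (J (B.cls (FreeGroup.of (base 0))))]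
    simp only [mul_inv_cancel_right, mul_inv_cancel, toAdd_one, Int.cast_zero, mul_zero, zero_div,
      neg_zero, sh_zero, mul_one]
    rw [map_mul, map_mul, map_mul, map_inv, map_inv, hρ, hρ, FreeGroup.lift_apply_of,
      FreeGroup.lift_apply_of]
    intro hcon
    rw [mul_inv_eq_one, mul_inv_eq_iff_eq_mul] at hcon
    exact hact.nc hcon

/-- The case of given classes of the meridians. -/
theorem cone_part {n : ℕ} (B : Braid n) (base : Fin 3 → Fin n) (hb : B.IsBase base)
    (l : Fin 3 → ℤ) (hl : ∀ c, l c ≠ 0) (hL : HasLinking B base l) (η : ℝ) (hη : 0 < η) :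
    ∃ δ : ℝ, 0 < δ ∧ ∀ (N : ℕ) (j : Fin 3 → ℤ) (ψ : B.LinkGroup →* Multiplicative (ZMod N)),
      (∀ c, ψ (B.cls (FreeGroup.of (base c))) = Multiplicative.ofAdd ((j c : ℤ) : ZMod N)) →
      (∀ c, |(j c : ℝ)| < δ * N) → (∃ k, ConeAt η (fun c => (j c : ℝ) / l c) k) →
      ∃ (Q : Type) (_ : Group Q) (φ : BranchedGroup B base ψ →* Q),
        Function.Surjective φ ∧ LeftOrderable Q := by
  choose δ hδ0 hδ using fun k : Fin 3 =>
    zero_case (shift_base hb k) (fun c => hl (c + k)) (shift_link hL k) hη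
  obtain ⟨δ', h1, h2⟩ : ∃ δ' : ℝ, 0 < δ' ∧ ∀ k, δ' ≤ δ k :=
    ⟨min (δ 0) (min (δ 1) (δ 2)), lt_min (hδ0 0) (lt_min (hδ0 1) (hδ0 2)), fun k => by
      fin_cases k
      · exact min_le_left _ _
      · exact (min_le_right _ _).trans (min_le_left _ _)
      · exact (min_le_right _ _).trans (min_le_right _ _)⟩
  refine ⟨δ', h1, fun N j ψ hψ hj ⟨k, hk⟩ => ?_⟩
  obtain ⟨f, hf, y, hy⟩ := hδ k N (fun c => j (c + k)) ψ (fun c => hψ _)
    (fun c => (hj _).trans_le (mul_le_mul_of_nonneg_right (h2 k) (Nat.cast_nonneg N)))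
    (shift_cone hk)
  have hset : branchSub B (fun c => base (c + k)) ψ = branchSub B base ψ := by
    unfold branchSub
    congr 1
    ext x
    constructor
    · rintro ⟨c, e, h3, h4⟩
      exact ⟨c + k, e, h3, h4⟩
    · rintro ⟨c, e, h3, h4⟩
      refine ⟨c - k, e, ?_, h4⟩
      show x = B.cls (FreeGroup.of (base (c - k + k))) ^ e
      rw [sub_add_cancel]; exact h3
  rw [hset] at hf
  let F : BranchedGroup B base ψ →* (ℝ ≃o ℝ) := QuotientGroup.lift _ f hf
  exact quot_of_hom orderIso_leftOrderable F (g := QuotientGroup.mk y) hy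

/-- Suitable classes of the meridians. -/
theorem exists_j {l : Fin 3 → ℤ} (hl : ∀ c, l c ≠ 0) :
    ∃ j : Fin 3 → ℤ, IsCoprime (j 0) (j 1) ∧ (∀ c, j c ≠ 0) ∧
      ConeAt (1 / 5) (fun c => (j c : ℝ) / l c) 0 := by
  obtain ⟨K, hK⟩ : ∃ K : ℤ, K = 8 * l 0 ^ 2 := ⟨_, rfl⟩
  have hK8 : 8 ≤ K := by
    have h1 : 0 < l 0 ^ 2 := by have := hl 0; positivity
    omega
  have hl' : ∀ c, (l c : ℝ) ≠ 0 := fun c => by exact_mod_cast hl c
  have hKR : (8 : ℝ) ≤ K := by exact_mod_cast hK8
  have hinv : |(1 : ℝ) / l 1| ≤ 1 := by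
    rw [abs_div, abs_one]
    have h1 : (1 : ℝ) ≤ |(l 1 : ℝ)| := by
      have := Int.one_le_abs (hl 1)
      exact_mod_cast this
    rw [div_le_one (by linarith)]
    exact h1
  have hi := abs_le.1 hinv
  have e0 : (((-4 * l 0 * K : ℤ)) : ℝ) / l 0 = -4 * K := by
    have := hl' 0
    push_cast; field_simp
  have e1 : (((l 1 * K + 1 : ℤ)) : ℝ) / l 1 = K + 1 / l 1 := by
    have := hl' 1
    push_cast; field_simp
  have e2 : (((l 2 * K : ℤ)) : ℝ) / l 2 = K := by
    have := hl' 2
    push_cast; field_simp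
  refine ⟨![-4 * l 0 * K, l 1 * K + 1, l 2 * K], ?_, ?_, ?_⟩
  · show IsCoprime (-4 * l 0 * K) (l 1 * K + 1)
    have h1 : IsCoprime (l 1 * K + 1) K := ⟨1, -l 1, by ring⟩
    have h2 : IsCoprime (l 1 * K + 1) (K ^ 2) := h1.pow_right
    refine (h2.of_isCoprime_of_dvd_right ⟨-2 * l 0, ?_⟩).symm
    rw [hK]; ring
  · intro c
    have hK0 : K ≠ 0 := by omega
    fin_cases c
    · exact mul_ne_zero (mul_ne_zero (by norm_num) (hl 0)) hK0
    · show l 1 * K + 1 ≠ 0
      intro h
      have h3 : (K : ℤ) ∣ 1 := ⟨-l 1, by linear_combination h⟩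
      have := Int.le_of_dvd one_pos h3
      omega
    · exact mul_ne_zero (hl 2) hK0
  · constructor
    · show 0 < (((l 1 * K + 1 : ℤ)) : ℝ) / l 1 * ((((l 2 * K : ℤ)) : ℝ) / l 2)
      rw [e1, e2]
      have : 0 < (K : ℝ) + 1 / l 1 := by linarith
      positivity
    · show (((-4 * l 0 * K : ℤ)) : ℝ) / l 0 * ((((l 1 * K + 1 : ℤ)) : ℝ) / l 1) < 0
      rw [e0, e1]
      have : 0 < (K : ℝ) + 1 / l 1 := by linarith
      nlinarith
    · show |(((l 1 * K + 1 : ℤ)) : ℝ) / l 1| + |(((l 2 * K : ℤ)) : ℝ) / l 2| ≤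
        (1 - 1 / 5) * |(((-4 * l 0 * K : ℤ)) : ℝ) / l 0|
      rw [e0, e1, e2, abs_of_pos (by linarith : 0 < (K : ℝ) + 1 / l 1),
        abs_of_pos (by linarith : (0 : ℝ) < K), abs_of_neg (by linarith : -4 * (K : ℝ) < 0)]
      linarith
    · show 1 / 5 * |(((-4 * l 0 * K : ℤ)) : ℝ) / l 0| ≤ |(((l 1 * K + 1 : ℤ)) : ℝ) / l 1|
      rw [e0, e1, abs_of_pos (by linarith : 0 < (K : ℝ) + 1 / l 1),
        abs_of_neg (by linarith : -4 * (K : ℝ) < 0)]
      linarith
    · show 1 / 5 * |(((-4 * l 0 * K : ℤ)) : ℝ) / l 0| ≤ |(((l 2 * K : ℤ)) : ℝ) / l 2|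
      rw [e0, e2, abs_of_pos (by linarith : (0 : ℝ) < K),
        abs_of_neg (by linarith : -4 * (K : ℝ) < 0)]
      linarith

/-- The homomorphism from the link group with given values at the meridians. -/
theorem exists_psi {n : ℕ} (B : Braid n) {base : Fin 3 → Fin n} (hb : B.IsBase base) (N : ℕ)
    (j : Fin 3 → ℤ) : ∃ ψ : B.LinkGroup →* Multiplicative (ZMod N),
      ∀ c, ψ (B.cls (FreeGroup.of (base c))) = Multiplicative.ofAdd ((j c : ℤ) : ZMod N) := by
  have hrel : ∀ r ∈ B.linkRels, FreeGroup.lift (fun k =>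
      Multiplicative.ofAdd ((j (B.comp hb k) : ℤ) : ZMod N)) r = 1 := by
    rintro r ⟨k, rfl⟩
    simp only [map_mul, map_inv, FreeGroup.lift_apply_of, B.comp_s hb k]
    rw [mul_right_comm, mul_inv_cancel_right, mul_inv_cancel]
  refine ⟨PresentedGroup.toGroup hrel, fun c => ?_⟩
  have : PresentedGroup.toGroup hrel (B.cls (FreeGroup.of (base c))) =
      FreeGroup.lift (fun k => Multiplicative.ofAdd ((j (B.comp hb k) : ℤ) : ZMod N))
        (FreeGroup.of (base c)) := rfl
  rw [this, FreeGroup.lift_apply_of, B.comp_base hb]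

/-- Let the closure of the braid `B` be a link with three components with nonzero linking numbers
`l c` (of the components `c + 1` and `c + 2`).

(1) For all large `N` there is a surjective homomorphism `ψ` from the link group to `ℤ / N`, not
trivial at any meridian (that is, a connected `N`-fold cyclic cover of the 3-sphere, branched over
all components of the link), such that the fundamental group of the branched cover defined by `ψ`
has a left-orderable quotient.

(2) For every `η > 0` there is a `δ > 0` such that, for every homomorphism `ψ` from the link group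
to `ℤ / N` that takes the meridian of the component `c` to the class of the integer `j c`, if
`|j c| < δ N` for all `c` and, for some `k`, the number `j k / l k` has the opposite sign of the two
other numbers `j c / l c`, the sum of the absolute values of the two other ones is at most
`(1 - η) |j k / l k|`, and each of them is at least `η |j k / l k|`, then the fundamental group of
the cyclic branched cover defined by `ψ` has a left-orderable quotient. -/
theorem result {n : ℕ} (B : Braid n) (base : Fin 3 → Fin n) (hb : B.IsBase base)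
    (l : Fin 3 → ℤ) (hl : ∀ c, l c ≠ 0) (hL : HasLinking B base l) :
    (∃ N₀ : ℕ, ∀ N : ℕ, N₀ ≤ N → ∃ ψ : B.LinkGroup →* Multiplicative (ZMod N),
      Function.Surjective ψ ∧ (∀ c, ψ (B.cls (FreeGroup.of (base c))) ≠ 1) ∧
      ∃ (Q : Type) (_ : Group Q) (φ : BranchedGroup B base ψ →* Q),
        Function.Surjective φ ∧ LeftOrderable Q) ∧
    ∀ η : ℝ, 0 < η → ∃ δ : ℝ, 0 < δ ∧
      ∀ (N : ℕ) (j : Fin 3 → ℤ) (ψ : B.LinkGroup →* Multiplicative (ZMod N)),
      (∀ c, ψ (B.cls (FreeGroup.of (base c))) = Multiplicative.ofAdd ((j c : ℤ) : ZMod N)) →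
      (∀ c, |(j c : ℝ)| < δ * N) → (∃ k, ConeAt η (fun c => (j c : ℝ) / l c) k) →
      ∃ (Q : Type) (_ : Group Q) (φ : BranchedGroup B base ψ →* Q),
        Function.Surjective φ ∧ LeftOrderable Q := by
  refine ⟨?_, fun η hη => cone_part B base hb l hl hL η hη⟩
  obtain ⟨j, hcop, hj0, hcone⟩ := exists_j hl
  obtain ⟨δ, hδ0, hδ⟩ := cone_part B base hb l hl hL (1 / 5) (by norm_num)
  obtain ⟨J, hJ⟩ : ∃ J : ℝ, J = |(j 0 : ℝ)| + |(j 1 : ℝ)| + |(j 2 : ℝ)| := ⟨_, rfl⟩
  have hJc : ∀ c, |(j c : ℝ)| ≤ J := by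
    intro c
    have n0 := abs_nonneg (j 0 : ℝ)
    have n1 := abs_nonneg (j 1 : ℝ)
    have n2 := abs_nonneg (j 2 : ℝ)
    rw [hJ]
    fin_cases c
    · show |(j 0 : ℝ)| ≤ _
      linarith
    · show |(j 1 : ℝ)| ≤ _
      linarith
    · show |(j 2 : ℝ)| ≤ _
      linarith
  have hJ0 : 0 ≤ J := (abs_nonneg _).trans (hJc 0)
  obtain ⟨N₀, hN₀⟩ := exists_nat_gt (J / δ + J)
  refine ⟨N₀, fun N hN => ?_⟩
  have hNR : (N₀ : ℝ) ≤ N := by exact_mod_cast hN
  have hJδ : 0 ≤ J / δ := by positivity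
  have hN1 : J / δ < N := by linarith
  have hN2 : J < N := by linarith
  rw [div_lt_iff₀ hδ0] at hN1
  obtain ⟨ψ, hψ⟩ := exists_psi B hb N j
  refine ⟨ψ, ?_, fun c => ?_, hδ N j ψ hψ (fun c => ?_) ⟨0, hcone⟩⟩
  · obtain ⟨a, b, hab⟩ := hcop
    intro z
    obtain ⟨m, hm⟩ := ZMod.intCast_surjective (Multiplicative.toAdd z)
    refine ⟨B.cls (FreeGroup.of (base 0)) ^ (a * m) * B.cls (FreeGroup.of (base 1)) ^ (b * m), ?_⟩
    rw [map_mul, map_zpow, map_zpow, hψ, hψ, ← ofAdd_zsmul, ← ofAdd_zsmul, ← ofAdd_add]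
    have h1 : (a * m) • ((j 0 : ℤ) : ZMod N) + (b * m) • ((j 1 : ℤ) : ZMod N) =
        ((m : ℤ) : ZMod N) := by
      rw [zsmul_eq_mul, zsmul_eq_mul]
      have h2 : m = a * m * j 0 + b * m * j 1 := by linear_combination (-m) * hab
      conv_rhs => rw [h2]
      push_cast
      ring
    rw [h1, hm]
    rfl
  · rw [hψ]
    intro h
    have h1 : ((j c : ℤ) : ZMod N) = 0 := h
    rw [ZMod.intCast_zmod_eq_zero_iff_dvd] at h1
    have h2 : (N : ℤ) ∣ |j c| := (dvd_abs _ _).2 h1
    have h3 := Int.le_of_dvd (abs_pos.2 (hj0 c)) h2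
    have h4 : (N : ℝ) ≤ |(j c : ℝ)| := by exact_mod_cast h3
    have h5 := hJc c
    linarith
  · have h5 := hJc c
    linarith

end Pool.Agent.Results.MP_3d425c_gt.CyclicBranchedCovers
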