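import Pool.Agent.H42.ML.Final
import Pool.Agent.H42.LK.Homology

set_option autoImplicit false

/-!
# Small surgeries on links with nonzero triple linking number

Let `L` be any link with three components in the 3-sphere whose pairwise linking numbers vanish
and whose triple linking number (Milnor's invariant `μ(123)`) is not zero.  The theorem: all small
surgeries on `L` with slopes of both signs and bounded ratios have a fundamental group with a
left-orderable quotient.  More precisely, for every `C` there is a `δ > 0` such that this holds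
for all rational slopes `r 0, r 1, r 2`, not all of the same sign, with `0 < |r c| < δ` and
`|r c| ≤ C |r c'|`.

Idea.  For `ε` close to zero we look for representations of the link group in `SL(2, ℝ)` such that
the meridian of the component `c` is `exp (ε Y c)` and the preferred longitude is
`exp (- ε ^ 2 ρ c Y c)`, where the slope is `r c = ε ρ c`.  In second order in `ε` the equations
are `μ [Y (c + 1), Y (c + 2)] = - ρ c Y c`.  They are solved by an orthogonal frame of
`sl (2, ℝ)`, which has vectors of both signs, so the `ρ c` have both signs too.  The solution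
extends to small `ε ≠ 0` by an implicit function argument.  Here some of the equations have to be
left out since the derivative of all equations is not surjective; the missing equations follow
from the fact that a braid preserves the product of the generators.  Finally the representation
lifts to the group of order automorphisms of the line.

All links are closures of braids (Alexander), and braids on `n` strands are the endomorphisms of
the free group that take every generator to a conjugate of a generator and preserve the product of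
the generators (Artin); see `Pool.Agent.H42.ML.Braid`.
-/

namespace Pool.Agent.Results.MP_3d425c_gt.SmallSurgeriesTripleLinking

open Pool.Agent.H42.LO Pool.Agent.H42.ML Filter Topology
open scoped Matrix.Norms.Operator

/-- A group with a nontrivial homomorphism to a left-orderable group has a left-orderable
quotient. -/
theorem quotient_of_hom {G : Type} [Group G] {H : Type} [Group H] (hH : LeftOrderable H)
    (f : G →* H) {g : G} (hg : f g ≠ 1) :
    ∃ (Q : Type) (_ : Group Q) (φ : G →* Q), Function.Surjective φ ∧ LeftOrderable Q := by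
  refine ⟨f.range, inferInstance, f.rangeRestrict, f.rangeRestrict_surjective, ?_, ?_⟩
  · refine ⟨⟨⟨f g, g, rfl⟩, 1, ?_⟩⟩
    intro h
    exact hg (congrArg Subtype.val h)
  · obtain ⟨-, lt, hlt, hinv⟩ := hH
    refine ⟨fun a b => lt a.1 b.1, ?_, fun a b c => hinv a.1 b.1 c.1⟩
    exact {
      trichotomous := fun a b hab hba => Subtype.ext (hlt.trichotomous a.1 b.1 hab hba)
      irrefl := fun a => hlt.irrefl a.1
      trans := fun a b c => hlt.trans a.1 b.1 c.1 }

variable {n : ℕ} {B : Braid n} {base : Fin 3 → Fin n}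

theorem near_case (hb : B.IsBase base) {μ : ℤ} (hμ : μ ≠ 0) (hL : B.HasTripleLinking base μ)
    {ρ : Fin 3 → ℝ} (h01 : 0 < ρ 0 * ρ 1) (h02 : ρ 0 * ρ 2 < 0) :
    ∀ᶠ x in 𝓝 ((0, ρ) : ℝ × (Fin 3 → ℝ)), x.1 ≠ 0 → ∀ p q : Fin 3 → ℤ,
      (∀ c, (p c : ℝ) = q c * (x.1 * x.2 c)) →
      ∃ f : B.SurgeryGroup base p q →* (ℝ ≃o ℝ), ∃ y, f y ≠ 1 := by
  have hμ' : (μ : ℝ) ≠ 0 := by exact_mod_cast hμ
  have hρ0 : ρ 0 ≠ 0 := by rintro h; rw [h] at h01; simp at h01
  have hρ1 : ρ 1 ≠ 0 := by rintro h; rw [h] at h01; simp at h01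
  have hρ2 : ρ 2 ≠ 0 := by rintro h; rw [h] at h02; simp at h02
  have h12 : ρ 1 * ρ 2 < 0 := by
    have h1 : (ρ 0 * ρ 1) * (ρ 0 * ρ 2) < 0 := mul_neg_of_pos_of_neg h01 h02
    have h2 : (ρ 0 * ρ 1) * (ρ 0 * ρ 2) = ρ 0 ^ 2 * (ρ 1 * ρ 2) := by ring
    rw [h2] at h1
    by_contra hcon
    push Not at hcon
    have : 0 ≤ ρ 0 ^ 2 * (ρ 1 * ρ 2) := mul_nonneg (sq_nonneg _) hcon
    linarith
  obtain ⟨d₀, hd₀⟩ : ∃ x : ℝ, x = Real.sqrt (-(ρ 1 * ρ 2) / (4 * μ ^ 2)) := ⟨_, rfl⟩
  obtain ⟨d₁, hd₁⟩ : ∃ x : ℝ, x = Real.sqrt (-(ρ 0 * ρ 2) / (4 * μ ^ 2)) := ⟨_, rfl⟩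
  have e0 : 0 < -(ρ 1 * ρ 2) / (4 * (μ : ℝ) ^ 2) := div_pos (by linarith) (by positivity)
  have e1 : 0 < -(ρ 0 * ρ 2) / (4 * (μ : ℝ) ^ 2) := div_pos (by linarith) (by positivity)
  have p0 : 0 < d₀ := by rw [hd₀]; exact Real.sqrt_pos.2 e0
  have p1 : 0 < d₁ := by rw [hd₁]; exact Real.sqrt_pos.2 e1
  have s0 : d₀ ^ 2 * (4 * (μ : ℝ) ^ 2) = -(ρ 1 * ρ 2) := by
    rw [hd₀, Real.sq_sqrt e0.le, div_mul_cancel₀ _ (by positivity)]
  have s1 : d₁ ^ 2 * (4 * (μ : ℝ) ^ 2) = -(ρ 0 * ρ 2) := by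
    rw [hd₁, Real.sq_sqrt e1.le, div_mul_cancel₀ _ (by positivity)]
  obtain ⟨d₂, hd₂⟩ : ∃ x : ℝ, x = 2 * μ * (d₀ * d₁) / ρ 2 := ⟨_, rfl⟩
  have t2 : ρ 2 * d₂ = 2 * μ * (d₀ * d₁) := by rw [hd₂]; field_simp
  have hd : ∀ c, (![d₀, d₁, d₂] : Fin 3 → ℝ) c ≠ 0 := by
    intro c
    fin_cases c
    · exact p0.ne'
    · exact p1.ne'
    · show d₂ ≠ 0
      rw [hd₂]
      exact div_ne_zero (mul_ne_zero (mul_ne_zero two_ne_zero hμ') (mul_pos p0 p1).ne') hρ2
  have hρ : ∀ c, ρ c ≠ 0 := by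
    intro c
    fin_cases c
    · exact hρ0
    · exact hρ1
    · exact hρ2
  have q0 : 2 * (μ : ℝ) * (d₁ * d₂) = - ρ 0 * d₀ := by
    apply mul_left_cancel₀ hρ2
    linear_combination 2 * μ * d₁ * t2 + d₀ * s1
  have q1 : 2 * (μ : ℝ) * (d₂ * d₀) = - ρ 1 * d₁ := by
    apply mul_left_cancel₀ hρ2
    linear_combination 2 * μ * d₀ * t2 + d₁ * s0
  have hev := hom_ev (ρ := ρ) B hb hL hd
  have hsol := exists_solution B hb hL hd hρ q0 q1 t2.symm hev
  filter_upwards [hsol] with x hx hx0 p q hpq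
  obtain ⟨a, ha, h1, h2, h3⟩ := hx
  exact ha (by rw [h1]; exact hx0) h3 p q (by intro c; rw [h1, h2]; exact hpq c)

theorem pattern_case (hb : B.IsBase base) {μ : ℤ} (hμ : μ ≠ 0) (hL : B.HasTripleLinking base μ)
    (C : ℝ) : ∃ δ : ℝ, 0 < δ ∧ ∀ p q : Fin 3 → ℤ, (∀ c, 1 ≤ q c) → ∀ r : Fin 3 → ℝ,
      (∀ c, r c = p c / q c) → (∀ c, |r c| < δ) → (∀ c c', |r c| ≤ C * |r c'|) →
      0 < r 0 * r 1 → r 0 * r 2 < 0 →
      ∃ f : B.SurgeryGroup base p q →* (ℝ ≃o ℝ), ∃ y, f y ≠ 1 := by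
  by_cases hC : 0 < C
  swap
  · refine ⟨1, one_pos, fun p q _ r _ _ h2 h3 _ => ?_⟩
    exfalso
    have h4 := h2 0 0
    have h5 : 0 < |r 0| := abs_pos.2 (by rintro h; rw [h] at h3; simp at h3)
    push Not at hC
    nlinarith
  set K : Set (Fin 3 → ℝ) := {ρ | (∀ c, |ρ c| ≤ 1 ∧ 1 / C ≤ |ρ c|) ∧ 0 ≤ ρ 0 * ρ 1 ∧
    ρ 0 * ρ 2 ≤ 0} with hK
  have hclosed : IsClosed K := by
    have e : K = (⋂ c, {ρ : Fin 3 → ℝ | |ρ c| ≤ 1} ∩ {ρ | 1 / C ≤ |ρ c|}) ∩
        ({ρ | 0 ≤ ρ 0 * ρ 1} ∩ {ρ | ρ 0 * ρ 2 ≤ 0}) := by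
      ext ρ
      simp [hK, Set.mem_iInter]
    rw [e]
    refine (isClosed_iInter fun c => ?_).inter ((isClosed_le (by fun_prop) (by fun_prop)).inter
      (isClosed_le (by fun_prop) (by fun_prop)))
    exact (isClosed_le (by fun_prop) (by fun_prop)).inter (isClosed_le (by fun_prop) (by fun_prop))
  have hbdd : Bornology.IsBounded K := by
    refine (Metric.isBounded_closedBall (x := (0 : Fin 3 → ℝ)) (r := 1)).subset fun ρ hρ => ?_
    rw [mem_closedBall_zero_iff, pi_norm_le_iff_of_nonneg zero_le_one]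
    intro c
    exact (hρ.1 c).1
  have hcomp : IsCompact K := Metric.isCompact_of_isClosed_isBounded hclosed hbdd
  have hev : ∀ᶠ ε in 𝓝 (0 : ℝ), ∀ ρ ∈ K, ε ≠ 0 → ∀ p q : Fin 3 → ℤ,
      (∀ c, (p c : ℝ) = q c * (ε * ρ c)) →
      ∃ f : B.SurgeryGroup base p q →* (ℝ ≃o ℝ), ∃ y, f y ≠ 1 := by
    refine hcomp.eventually_forall_of_forall_eventually fun ρ hρ => ?_
    have hne : ∀ c, ρ c ≠ 0 := by
      intro c h0
      have h1 := (hρ.1 c).2
      rw [h0, abs_zero] at h1
      have : 0 < 1 / C := by positivity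
      linarith
    exact near_case hb hμ hL (lt_of_le_of_ne hρ.2.1 (mul_ne_zero (hne 0) (hne 1)).symm)
      (lt_of_le_of_ne hρ.2.2 (mul_ne_zero (hne 0) (hne 2)))
  obtain ⟨δ, hδ, hball⟩ := Metric.eventually_nhds_iff.1 hev
  refine ⟨δ, hδ, fun p q hq r hr h1 h2 h3 h4 => ?_⟩
  obtain ⟨m, hm⟩ := Finite.exists_max (fun c => |r c|)
  have hne : ∀ c, r c ≠ 0 := by
    have g0 : r 0 ≠ 0 := by rintro h; rw [h] at h3; simp at h3
    have g1 : r 1 ≠ 0 := by rintro h; rw [h] at h3; simp at h3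
    have g2 : r 2 ≠ 0 := by rintro h; rw [h] at h4; simp at h4
    intro c
    fin_cases c
    · exact g0
    · exact g1
    · exact g2
  have hmpos : 0 < |r m| := abs_pos.2 (hne m)
  refine hball (y := |r m|) (by rw [Real.dist_eq, sub_zero, abs_abs]; exact h1 m)
    (fun c => r c / |r m|) ⟨fun c => ⟨?_, ?_⟩, ?_, ?_⟩ hmpos.ne' p q fun c => ?_
  · rw [abs_div, abs_abs, div_le_one hmpos]; exact hm c
  · rw [abs_div, abs_abs, div_le_div_iff₀ hC hmpos]
    have := h2 m c
    linarith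
  · have : r 0 / |r m| * (r 1 / |r m|) = r 0 * r 1 / (|r m| * |r m|) := by ring
    rw [this]; positivity
  · have : r 0 / |r m| * (r 2 / |r m|) = r 0 * r 2 / (|r m| * |r m|) := by ring
    rw [this]
    exact div_nonpos_of_nonpos_of_nonneg h4.le (by positivity)
  · have hq0 : (q c : ℝ) ≠ 0 := by
      have := hq c
      exact_mod_cast (by omega : q c ≠ 0)
    rw [mul_div_cancel₀ _ hmpos.ne', hr c]
    field_simp

/-! ## Renumbering the components -/

theorem shift_isBase (hb : B.IsBase base) (k : Fin 3) : B.IsBase (fun c => base (c + k)) := by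
  intro j
  obtain ⟨c, hc, hc'⟩ := hb j
  refine ⟨c - k, ?_, fun d hd => ?_⟩
  · show B.s.SameCycle (base (c - k + k)) j
    rw [sub_add_cancel]; exact hc
  · have := hc' (d + k) hd
    rw [← this, add_sub_cancel_right]

theorem shift_triple {μ : ℤ} (hL : B.HasTripleLinking base μ) (k : Fin 3) :
    B.HasTripleLinking (fun c => base (c + k)) μ := by
  intro c
  have h1 : c + 1 + k = c + k + 1 := by abel
  have h2 : c + 2 + k = c + k + 2 := by abel
  simp only [h1, h2]
  exact hL (c + k)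

theorem shift_rels (p q : Fin 3 → ℤ) (k : Fin 3) :
    B.surgeryRels (fun c => base (c + k)) (fun c => p (c + k)) (fun c => q (c + k)) =
      B.surgeryRels base p q := by
  ext w
  constructor
  · rintro (h | ⟨c, hc⟩)
    · exact Or.inl h
    · exact Or.inr ⟨c + k, hc⟩
  · rintro (h | ⟨c, hc⟩)
    · exact Or.inl h
    · refine Or.inr ⟨c - k, ?_⟩
      simp only [sub_add_cancel]
      exact hc

theorem sign_pattern {r : Fin 3 → ℝ} (h0 : ∀ c, r c ≠ 0) (h : ∃ c c', r c * r c' < 0) :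
    ∃ k : Fin 3, 0 < r (0 + k) * r (1 + k) ∧ r (0 + k) * r (2 + k) < 0 := by
  have key : ∀ x y : ℝ, x ≠ 0 → y ≠ 0 → 0 < x * y ∨ x * y < 0 := by
    intro x y hx hy
    rcases lt_or_gt_of_ne (mul_ne_zero hx hy) with h | h
    · exact Or.inr h
    · exact Or.inl h
  have sq : ∀ c, 0 < r c * r c := fun c => mul_self_pos.2 (h0 c)
  rcases key _ _ (h0 0) (h0 1) with h01 | h01
  · rcases key _ _ (h0 0) (h0 2) with h02 | h02
    · exfalso
      have h12 : 0 < r 1 * r 2 := by
        have h1 : 0 < (r 0 * r 1) * (r 0 * r 2) := mul_pos h01 h02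
        have h2 : (r 0 * r 1) * (r 0 * r 2) = (r 0 * r 0) * (r 1 * r 2) := by ring
        rw [h2] at h1
        exact (pos_iff_pos_of_mul_pos h1).1 (sq 0)
      obtain ⟨c, c', hcc⟩ := h
      have sq0 := sq 0
      have sq1 := sq 1
      have sq2 := sq 2
      fin_cases c <;> fin_cases c' <;> simp at hcc <;> nlinarith
    · exact ⟨0, h01, h02⟩
  · rcases key _ _ (h0 0) (h0 2) with h02 | h02
    · refine ⟨2, ?_, ?_⟩
      · show 0 < r 2 * r 0
        linarith
      · show r 2 * r 1 < 0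
        have h1 : (r 0 * r 1) * (r 0 * r 2) < 0 := mul_neg_of_neg_of_pos h01 h02
        have h2 : (r 0 * r 1) * (r 0 * r 2) = (r 0 * r 0) * (r 2 * r 1) := by ring
        rw [h2] at h1
        by_contra hcon
        push Not at hcon
        have := mul_nonneg (sq 0).le hcon
        linarith
    · refine ⟨1, ?_, ?_⟩
      · show 0 < r 1 * r 2
        have h1 : 0 < (r 0 * r 1) * (r 0 * r 2) := mul_pos_of_neg_of_neg h01 h02
        have h2 : (r 0 * r 1) * (r 0 * r 2) = (r 0 * r 0) * (r 1 * r 2) := by ring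
        rw [h2] at h1
        exact (pos_iff_pos_of_mul_pos h1).1 (sq 0)
      · show r 1 * r 0 < 0
        linarith

theorem main_part {n : ℕ} (B : Braid n) (base : Fin 3 → Fin n) (hb : B.IsBase base) (μ : ℤ)
    (hμ : μ ≠ 0) (hL : B.HasTripleLinking base μ) (C : ℝ) :
    ∃ δ : ℝ, 0 < δ ∧ ∀ p q : Fin 3 → ℤ, (∀ c, 1 ≤ q c) → ∀ r : Fin 3 → ℝ,
      (∀ c, r c = p c / q c) → (∀ c, r c ≠ 0) → (∀ c, |r c| < δ) →
      (∀ c c', |r c| ≤ C * |r c'|) → (∃ c c', r c * r c' < 0) →
      ∃ (Q : Type) (_ : Group Q) (φ : B.SurgeryGroup base p q →* Q),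
        Function.Surjective φ ∧ LeftOrderable Q := by
  choose δ hδ0 hδ using fun k : Fin 3 =>
    pattern_case (shift_isBase hb k) hμ (shift_triple hL k) C
  obtain ⟨δ', h1, h2⟩ : ∃ δ' : ℝ, 0 < δ' ∧ ∀ k, δ' ≤ δ k :=
    ⟨min (δ 0) (min (δ 1) (δ 2)), lt_min (hδ0 0) (lt_min (hδ0 1) (hδ0 2)), fun k => by
      fin_cases k
      · exact min_le_left _ _
      · exact (min_le_right _ _).trans (min_le_left _ _)
      · exact (min_le_right _ _).trans (min_le_right _ _)⟩
  refine ⟨δ', h1, fun p q hq r hr hne hsmall hratio hsign => ?_⟩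
  obtain ⟨k, hk1, hk2⟩ := sign_pattern hne hsign
  obtain ⟨f, y, hy⟩ := hδ k (fun c => p (c + k)) (fun c => q (c + k)) (fun c => hq _)
    (fun c => r (c + k)) (fun c => hr _) (fun c => (hsmall _).trans_le (h2 k))
    (fun c c' => hratio _ _) hk1 hk2
  have hset := shift_rels (B := B) (base := base) p q k
  have key : ∀ R : Set (FreeGroup (Fin n)), R = B.surgeryRels base p q →
      (∃ f : PresentedGroup R →* (ℝ ≃o ℝ), ∃ y, f y ≠ 1) →
      ∃ (Q : Type) (_ : Group Q) (φ : B.SurgeryGroup base p q →* Q),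
        Function.Surjective φ ∧ LeftOrderable Q := by
    intro R hR
    rw [hR]
    rintro ⟨f, y, hy⟩
    exact quotient_of_hom orderIso_leftOrderable f hy
  exact key _ hset ⟨f, y, hy⟩

/-- Let the closure of the braid `B` be a link with three components, pairwise linking numbers
zero, and triple linking number `μ ≠ 0`.  For every `C` there is a `δ > 0` such that, for all
rational slopes `r c = p c / q c` different from zero which do not all have the same sign and
satisfy `|r c| < δ` and `|r c| ≤ C |r c'|` for all components `c`, `c'`, the first homology group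
of the surgery is finite, of order `|p 0 * p 1 * p 2|`, and its fundamental group has a
left-orderable quotient. -/
theorem result {n : ℕ} (B : Braid n) (base : Fin 3 → Fin n) (hb : B.IsBase base) (μ : ℤ)
    (hμ : μ ≠ 0) (hL : B.HasTripleLinking base μ) (C : ℝ) :
    ∃ δ : ℝ, 0 < δ ∧ ∀ p q : Fin 3 → ℤ, (∀ c, 1 ≤ q c) → ∀ r : Fin 3 → ℝ,
      (∀ c, r c = p c / q c) → (∀ c, r c ≠ 0) → (∀ c, |r c| < δ) →
      (∀ c c', |r c| ≤ C * |r c'|) → (∃ c c', r c * r c' < 0) →
      Finite (Abelianization (B.SurgeryGroup base p q)) ∧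
      Nat.card (Abelianization (B.SurgeryGroup base p q)) = (p 0 * p 1 * p 2).natAbs ∧
      ∃ (Q : Type) (_ : Group Q) (φ : B.SurgeryGroup base p q →* Q),
        Function.Surjective φ ∧ LeftOrderable Q := by
  obtain ⟨δ, hδ, H⟩ := main_part B base hb μ hμ hL C
  refine ⟨δ, hδ, fun p q hq r hr hne hsmall hratio hsign => ?_⟩
  have hp : ∀ c, p c ≠ 0 := by
    intro c h0
    apply hne c
    rw [hr, h0, Int.cast_zero, zero_div]
  have hdet : (Pool.Agent.H42.LK.relMat 0 p q).det = p 0 * p 1 * p 2 := by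
    rw [Pool.Agent.H42.LK.relMat_det]
    simp
  have hne' : (Pool.Agent.H42.LK.relMat 0 p q).det ≠ 0 := by
    rw [hdet]
    exact mul_ne_zero (mul_ne_zero (hp 0) (hp 1)) (hp 2)
  have hcard := Pool.Agent.H42.LK.card_H1 B hb p q (Pool.Agent.H42.LK.linking_zero hb hL) hne'
  refine ⟨?_, by rw [hcard, hdet], H p q hq r hr hne hsmall hratio hsign⟩
  apply Nat.finite_of_card_ne_zero
  rw [hcard]
  exact Int.natAbs_ne_zero.2 hne'

end Pool.Agent.Results.MP_3d425c_gt.SmallSurgeriesTripleLinking
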