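import Pool.Agent.H42.LK.Det

set_option autoImplicit false

/-!
# Surgeries on links with nonzero linking numbers, near degenerate framings

Let `L` be any link with three components in the 3-sphere with nonzero linking numbers
`l 0, l 1, l 2` (`l c` is the linking number of the components `c + 1` and `c + 2`), and let
`χ 0, χ 1, χ 2` be nonzero integers with `∑ χ c / l c ≠ 0`.  For rational slopes `r c` put
`D c = χ c * (r c * χ c + l (c + 2) * χ (c + 1) + l (c + 1) * χ (c + 2))`.  The surgery with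
`D = 0` has positive first Betti number.  The theorem: all surgeries with small `D` such that one
of the three numbers `D c` has the opposite sign of the two other ones and is larger than the sum
of the two other ones in absolute value, with fixed ratios of safety, have a fundamental group
with a left-orderable quotient.

Idea.  For small `ε` we look for representations of the link group in `SL(2, ℝ)` such that all
meridians are rotations by small angles `ε w c`.  In first order in `ε` the equation for the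
generators `Y c` of these rotations is `∑ Y c / l c = 0`: a triangle in the Lorentz plane with
timelike sides of lengths `w c / l c`.  Such triangles exist if the reversed triangle inequality
holds.  The solution extends to small `ε` by an implicit function argument.  The redundant
equations are left out, and they follow from the fact that a braid preserves the product of the
generators.  Finally the meridians are lifted to the line and multiplied by the central shifts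
`χ c`.
-/

namespace Pool.Agent.Results.MP_3d425c_gt.SurgeriesNearDegenerateFramings

open Pool.Agent.H42.LO Pool.Agent.H42.ML Pool.Agent.H42.LK

variable {n : ℕ} {B : Braid n} {base : Fin 3 → Fin n}

theorem zero_case (hb : B.IsBase base) {l : Fin 3 → ℤ} (hl : ∀ c, l c ≠ 0)
    (hL : HasLinking B base l) {χ : Fin 3 → ℤ} (hχ : ∀ c, χ c ≠ 0)
    (hX : ∑ c, (χ c : ℝ) / l c ≠ 0) {η : ℝ} (hη : 0 < η) :
    ∃ δ : ℝ, 0 < δ ∧ ∀ p q : Fin 3 → ℤ, (∀ c, 1 ≤ q c) → ∀ D : Fin 3 → ℝ,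
      (∀ c, D c = χ c * (p c / q c * χ c + l (c + 2) * χ (c + 1) + l (c + 1) * χ (c + 2))) →
      (∀ c, |D c| < δ) → ConeAt η D 0 →
      ∃ f : B.SurgeryGroup base p q →* (ℝ ≃o ℝ), ∃ y, f y ≠ 1 := by
  have hpi := Real.pi_pos
  have hl' : ∀ c, (l c : ℝ) ≠ 0 := fun c => by exact_mod_cast hl c
  have hχ' : ∀ c, (χ c : ℝ) ≠ 0 := fun c => by exact_mod_cast hχ c
  obtain ⟨X, hXd⟩ : ∃ X : ℝ, X = (χ 0 : ℝ) / l 0 + χ 1 / l 1 + χ 2 / l 2 := ⟨_, rfl⟩
  have hX0 : X ≠ 0 := by rw [hXd]; rwa [Fin.sum_univ_three] at hX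
  have key : ∀ (c : Fin 3) (G : Fin 3 → ℝ), G 0 + G 1 + G 2 = G c + G (c + 1) + G (c + 2) := by
    intro c G
    fin_cases c
    · rfl
    · show G 0 + G 1 + G 2 = G 1 + G 2 + G 0
      ring
    · show G 0 + G 1 + G 2 = G 2 + G 0 + G 1
      ring
  have key' : ∀ c : Fin 3, (l 0 : ℝ) * l 1 * l 2 = l c * l (c + 1) * l (c + 2) := by
    intro c
    fin_cases c
    · rfl
    · show (l 0 : ℝ) * l 1 * l 2 = l 1 * l 2 * l 0
      ring
    · show (l 0 : ℝ) * l 1 * l 2 = l 2 * l 0 * l 1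
      ring
  obtain ⟨α, hα⟩ : ∃ α : Fin 3 → ℝ, α = fun c =>
    -((l (c + 2) : ℝ) * χ (c + 1) + l (c + 1) * χ (c + 2)) / χ c := ⟨_, rfl⟩
  obtain ⟨P, hP⟩ : ∃ P : ℝ, P = (l 0 : ℝ) * l 1 * l 2 := ⟨_, rfl⟩
  have hP0 : P ≠ 0 := by rw [hP]; exact mul_ne_zero (mul_ne_zero (hl' 0) (hl' 1)) (hl' 2)
  have hγ : ∀ c, (α c + 1 * (-(l (c + 1) * l (c + 2)) / l c)) * l c = -(P * X / χ c) := by
    intro c
    have h1 := key c (fun c => (χ c : ℝ) / l c)
    have h2 := key' c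
    have a1 := hl' c
    have a2 := hl' (c + 1)
    have a3 := hl' (c + 2)
    have a4 := hχ' c
    rw [hP, h2, hXd, h1, hα]
    field_simp
    ring
  have hγ0 : ∀ c, α c + 1 * (-((l (c + 1) : ℝ) * l (c + 2)) / l c) ≠ 0 := by
    intro c h0
    have h1 := hγ c
    rw [h0, zero_mul] at h1
    have h2 : P * X / χ c ≠ 0 := div_ne_zero (mul_ne_zero hP0 hX0) (hχ' c)
    exact h2 (by linarith)
  obtain ⟨δ, hδ, hfam⟩ := unif hb hl' hL (κ := 1) (α := α) (β := fun c => Real.pi * χ c)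
    (τ := fun c => 1 / (χ c : ℝ) ^ 2) hγ0 (Γ := Real.pi / (P * X))
    (div_ne_zero hpi.ne' (mul_ne_zero hP0 hX0)) (fun c => by
      rw [hγ c]
      have := hχ' c
      field_simp) hη
  refine ⟨δ, hδ, fun p q hq D hD hDs hcone => ?_⟩
  have hD0 : D 0 ≠ 0 := by
    rintro h; have := hcone.opp; rw [h] at this; simp at this
  have hDpos : 0 < |D 0| := abs_pos.2 hD0
  obtain ⟨ε, hε⟩ : ∃ ε : ℝ, ε = |D 0| := ⟨_, rfl⟩
  have hε0 : 0 < ε := by rw [hε]; exact hDpos
  obtain ⟨b, hb'⟩ : ∃ b : Fin 3 → ℝ, b = fun c => D c / ε := ⟨_, rfl⟩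
  have hbD : ∀ c, ε * b c = D c := by intro c; rw [hb']; field_simp
  have hb0 : |b 0| = 1 := by
    rw [hb']; simp only [abs_div]; rw [abs_of_pos hε0, hε, div_self hDpos.ne']
  have hbabs : ∀ c, |b c| = |D c| / ε := by
    intro c; rw [hb']; simp only [abs_div]; rw [abs_of_pos hε0]
  have hcone' : ConeAt η b 0 := by
    obtain ⟨c1, c2, c3, c4, c5⟩ := hcone
    constructor
    · have : b (0 + 1) * b (0 + 2) = D (0 + 1) * D (0 + 2) / (ε * ε) := by rw [hb']; field_simp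
      rw [this]; positivity
    · have : b 0 * b (0 + 1) = D 0 * D (0 + 1) / (ε * ε) := by rw [hb']; field_simp
      rw [this]; exact div_neg_of_neg_of_pos c2 (by positivity)
    · rw [hbabs, hbabs, hbabs, ← add_div, mul_div_assoc']
      exact div_le_div_of_nonneg_right c3 hε0.le
    · rw [hbabs, hbabs, mul_div_assoc']
      exact div_le_div_of_nonneg_right c4 hε0.le
    · rw [hbabs, hbabs, mul_div_assoc']
      exact div_le_div_of_nonneg_right c5 hε0.le
  obtain ⟨w, s, hw0, hcst, g, hact⟩ := hfam ε hε0 (by rw [hε]; exact hDs 0) b hcone' hb0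
  -- the slopes
  have hq0 : ∀ c, (q c : ℝ) ≠ 0 := fun c => by
    have := hq c
    exact_mod_cast (by omega : q c ≠ 0)
  have hslope : ∀ c, ε * w c * (p c + q c * s c) +
      Real.pi * (p c * χ c + q c * (l (c + 2) * χ (c + 1) + l (c + 1) * χ (c + 2))) = 0 := by
    intro c
    obtain ⟨r, hr⟩ : ∃ r : ℝ, r = p c / q c := ⟨_, rfl⟩
    have hp : (p c : ℝ) = q c * r := by rw [hr, mul_div_cancel₀ _ (hq0 c)]
    obtain ⟨Λ, hΛ⟩ : ∃ Λ : ℝ, Λ = (l (c + 2) : ℝ) * χ (c + 1) + l (c + 1) * χ (c + 2) := ⟨_, rfl⟩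
    have h1 := hD c
    rw [← hr] at h1
    have h1' : D c = χ c * (r * χ c + Λ) := by rw [h1, hΛ]; ring
    have h2 := hbD c
    have h3 := hcst c
    have hαc : α c = -Λ / χ c := by rw [hα, hΛ]
    have a4 := hχ' c
    have h4 : ε * (1 / (χ c : ℝ) ^ 2 * b c) = r - α c := by
      have e1 : ε * (1 / (χ c : ℝ) ^ 2 * b c) = ε * b c / (χ c : ℝ) ^ 2 := by ring
      rw [e1, h2, h1', hαc]
      field_simp
      ring
    have h5 : ε * (w c * (α c + 1 * (ε * (1 / (χ c : ℝ) ^ 2 * b c) + s c)) +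
        Real.pi * χ c * (1 / (χ c : ℝ) ^ 2 * b c)) = 0 := by rw [h3, mul_zero]
    rw [h4] at h5
    have h6 : ε * (Real.pi * χ c * (1 / (χ c : ℝ) ^ 2 * b c)) = Real.pi * χ c * (r - α c) := by
      rw [← h4]; ring
    have h7 : χ c * α c = -Λ := by rw [hαc]; field_simp
    rw [hp, ← hΛ]
    have h8 : ε * w c * (r + s c) + Real.pi * χ c * (r - α c) = 0 := by
      rw [← h6]; linear_combination h5
    linear_combination (q c : ℝ) * h8 + Real.pi * q c * h7
  -- the twisted representation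
  have hrel : ∀ r ∈ B.surgeryRels base p q, FreeGroup.lift (twist B hb χ g) r = 1 := by
    rintro r (⟨k, rfl⟩ | ⟨c, rfl⟩)
    · rw [twist_word B hb χ hact.per, hact.rel k, wsum_rel B hb]
      simp [sh_zero]
    · rw [twist_word B hb χ hact.per, wsum_mul, wsum_zpow, wsum_zpow, wsum_of B hb,
        B.comp_base hb, wsum_longitude B hb hL, map_mul, map_zpow, map_zpow]
      obtain ⟨f, hf, f1, f2⟩ := hact.peri c
      rw [FreeGroup.lift_apply_of, f1, f2, conj_sh_zpow, conj_sh_zpow]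
      have e1 := per_comm (per_inv hf) (p c * χ c + q c * (l (c + 2) * χ (c + 1) +
        l (c + 1) * χ (c + 2)))
      calc f * sh (p c * (ε * w c)) * f⁻¹ * (f * sh (q c * (ε * s c * w c)) * f⁻¹) *
            sh (Real.pi * ((p c * χ c + q c * (l (c + 2) * χ (c + 1) +
              l (c + 1) * χ (c + 2)) : ℤ) : ℝ))
          = f * (sh (p c * (ε * w c)) * sh (q c * (ε * s c * w c))) * (f⁻¹ *
            sh (Real.pi * ((p c * χ c + q c * (l (c + 2) * χ (c + 1) +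
              l (c + 1) * χ (c + 2)) : ℤ) : ℝ))) := by group
        _ = f * (sh (p c * (ε * w c)) * sh (q c * (ε * s c * w c)) *
            sh (Real.pi * ((p c * χ c + q c * (l (c + 2) * χ (c + 1) +
              l (c + 1) * χ (c + 2)) : ℤ) : ℝ))) * f⁻¹ := by rw [e1]; group
        _ = 1 := by
          rw [← sh_add, ← sh_add]
          have e2 : (p c : ℝ) * (ε * w c) + q c * (ε * s c * w c) +
              Real.pi * ((p c * χ c + q c * (l (c + 2) * χ (c + 1) +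
                l (c + 1) * χ (c + 2)) : ℤ) : ℝ) = 0 := by
            push_cast
            linear_combination hslope c
          rw [e2, sh_zero]
          group
  refine ⟨PresentedGroup.toGroup hrel, PresentedGroup.of (base 0) * PresentedGroup.of (base 1) *
    (PresentedGroup.of (base 0))⁻¹ * (PresentedGroup.of (base 1))⁻¹, ?_⟩
  rw [map_mul, map_mul, map_mul, map_inv, map_inv, PresentedGroup.toGroup.of,
    PresentedGroup.toGroup.of]
  intro hcon
  refine twist_nc B hb χ hact.per hact.nc ?_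
  rw [mul_inv_eq_one, mul_inv_eq_iff_eq_mul] at hcon
  exact hcon

theorem shift_rels (p q : Fin 3 → ℤ) (k : Fin 3) :
    B.surgeryRels (fun c => base (c + k)) (fun c => p (c + k)) (fun c => q (c + k)) =
      B.surgeryRels base p q := by
  ext w
  constructor
  · rintro (h | ⟨c, hc⟩)
    · exact Or.inl h
    · exact Or.inr ⟨c + k, hc⟩
  · rintro (h | ⟨c, hc⟩)
    · exact Or.inl h
    · refine Or.inr ⟨c - k, ?_⟩
      simp only [sub_add_cancel]
      exact hc

theorem cone_part {n : ℕ} (B : Braid n) (base : Fin 3 → Fin n) (hb : B.IsBase base)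
    (l : Fin 3 → ℤ) (hl : ∀ c, l c ≠ 0) (hL : HasLinking B base l) (χ : Fin 3 → ℤ)
    (hχ : ∀ c, χ c ≠ 0) (hX : ∑ c, (χ c : ℝ) / l c ≠ 0) (η : ℝ) (hη : 0 < η) :
    ∃ δ : ℝ, 0 < δ ∧ ∀ p q : Fin 3 → ℤ, (∀ c, 1 ≤ q c) → ∀ D : Fin 3 → ℝ,
      (∀ c, D c = χ c * (p c / q c * χ c + l (c + 2) * χ (c + 1) + l (c + 1) * χ (c + 2))) →
      (∀ c, |D c| < δ) → (∃ k, ConeAt η D k) →
      ∃ (Q : Type) (_ : Group Q) (φ : B.SurgeryGroup base p q →* Q),
        Function.Surjective φ ∧ LeftOrderable Q := by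
  have hX' : ∀ k : Fin 3, ∑ c, ((χ (c + k) : ℤ) : ℝ) / ((l (c + k) : ℤ) : ℝ) ≠ 0 := by
    intro k
    have : ∑ c, ((χ (c + k) : ℤ) : ℝ) / ((l (c + k) : ℤ) : ℝ) = ∑ c, (χ c : ℝ) / l c :=
      Equiv.sum_comp (Equiv.addRight k) (fun c => (χ c : ℝ) / l c)
    rw [this]; exact hX
  choose δ hδ0 hδ using fun k : Fin 3 =>
    zero_case (shift_base hb k) (fun c => hl (c + k)) (shift_link hL k) (fun c => hχ (c + k))
      (hX' k) hη
  obtain ⟨δ', h1, h2⟩ : ∃ δ' : ℝ, 0 < δ' ∧ ∀ k, δ' ≤ δ k :=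
    ⟨min (δ 0) (min (δ 1) (δ 2)), lt_min (hδ0 0) (lt_min (hδ0 1) (hδ0 2)), fun k => by
      fin_cases k
      · exact min_le_left _ _
      · exact (min_le_right _ _).trans (min_le_left _ _)
      · exact (min_le_right _ _).trans (min_le_right _ _)⟩
  refine ⟨δ', h1, fun p q hq D hD hDs ⟨k, hk⟩ => ?_⟩
  have e1 : ∀ c : Fin 3, c + 1 + k = c + k + 1 := fun c => by abel
  have e2 : ∀ c : Fin 3, c + 2 + k = c + k + 2 := fun c => by abel
  obtain ⟨f, y, hy⟩ := hδ k (fun c => p (c + k)) (fun c => q (c + k)) (fun c => hq _)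
    (fun c => D (c + k)) (fun c => by simp only [e1, e2]; exact hD (c + k))
    (fun c => (hDs _).trans_le (h2 k)) (shift_cone hk)
  have hset := shift_rels (B := B) (base := base) p q k
  have key : ∀ R : Set (FreeGroup (Fin n)), R = B.surgeryRels base p q →
      (∃ f : PresentedGroup R →* (ℝ ≃o ℝ), ∃ y, f y ≠ 1) →
      ∃ (Q : Type) (_ : Group Q) (φ : B.SurgeryGroup base p q →* Q),
        Function.Surjective φ ∧ LeftOrderable Q := by
    intro R hR
    rw [hR]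
    rintro ⟨f, y, hy⟩
    exact quot_of_hom orderIso_leftOrderable f hy
  exact key _ hset ⟨f, y, hy⟩

theorem W_ne {l χ : Fin 3 → ℤ} (hl : ∀ c, l c ≠ 0) (hχ : ∀ c, χ c ≠ 0)
    (hX : ∑ c, (χ c : ℝ) / l c ≠ 0) {w : Fin 3 → ℝ}
    (hw : ∀ c, w c = χ (c + 1) * χ (c + 2) * l c) :
    w 0 * w 1 + w 1 * w 2 + w 2 * w 0 ≠ 0 := by
  have hl' : ∀ c, (l c : ℝ) ≠ 0 := fun c => by exact_mod_cast hl c
  have hχ' : ∀ c, (χ c : ℝ) ≠ 0 := fun c => by exact_mod_cast hχ c
  have h0 := hw 0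
  have h1 := hw 1
  have h2 := hw 2
  have a1 : (0 : Fin 3) + 1 = 1 := rfl
  have a2 : (0 : Fin 3) + 2 = 2 := rfl
  have a3 : (1 : Fin 3) + 1 = 2 := rfl
  have a4 : (1 : Fin 3) + 2 = 0 := rfl
  have a5 : (2 : Fin 3) + 1 = 0 := rfl
  have a6 : (2 : Fin 3) + 2 = 1 := rfl
  rw [a1, a2] at h0
  rw [a3, a4] at h1
  rw [a5, a6] at h2
  have e : w 0 * w 1 + w 1 * w 2 + w 2 * w 0 = ((χ 0 : ℝ) * χ 1 * χ 2) * (l 0 * l 1 * l 2) *
      ∑ c, (χ c : ℝ) / l c := by
    have b0 := hl' 0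
    have b1 := hl' 1
    have b2 := hl' 2
    rw [Fin.sum_univ_three, h0, h1, h2]
    field_simp
    ring
  rw [e]
  exact mul_ne_zero (mul_ne_zero (mul_ne_zero (mul_ne_zero (hχ' 0) (hχ' 1)) (hχ' 2))
    (mul_ne_zero (mul_ne_zero (hl' 0) (hl' 1)) (hl' 2))) hX

/-- The order of the first homology group is finite in the cone. -/
theorem finite_part {n : ℕ} {B : Braid n} {base : Fin 3 → Fin n} (hb : B.IsBase base)
    {l : Fin 3 → ℤ} (hl : ∀ c, l c ≠ 0) (hL : HasLinking B base l) {χ : Fin 3 → ℤ}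
    (hχ : ∀ c, χ c ≠ 0) (hX : ∑ c, (χ c : ℝ) / l c ≠ 0) {η : ℝ} (hη : 0 < η) :
    ∃ δ : ℝ, 0 < δ ∧ ∀ p q : Fin 3 → ℤ, (∀ c, 1 ≤ q c) → ∀ D : Fin 3 → ℝ,
      (∀ c, D c = χ c * (p c / q c * χ c + l (c + 2) * χ (c + 1) + l (c + 1) * χ (c + 2))) →
      (∀ c, |D c| < δ) → (∃ k, ConeAt η D k) →
      Finite (Abelianization (B.SurgeryGroup base p q)) := by
  obtain ⟨w, hw⟩ : ∃ w : Fin 3 → ℝ, ∀ c, w c = χ (c + 1) * χ (c + 2) * l c := ⟨_, fun c => rfl⟩
  obtain ⟨W, hW⟩ : ∃ W : ℝ, W = w 0 * w 1 + w 1 * w 2 + w 2 * w 0 := ⟨_, rfl⟩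
  have hW0 : 0 < |W| := by rw [hW]; exact abs_pos.2 (W_ne hl hχ hX hw)
  obtain ⟨S, hS⟩ : ∃ S : ℝ, S = 2 * (|w 0| + |w 1| + |w 2|) := ⟨_, rfl⟩
  have hS0 : 0 ≤ S := by rw [hS]; positivity
  refine ⟨min 1 (η * |W| / (S + 1)), lt_min one_pos (by positivity),
    fun p q hq D hD hDs ⟨k, hk⟩ => ?_⟩
  obtain ⟨k1, k2, k3⟩ := cone_facts hη hk
  have b1 := (hDs k).trans_le (min_le_left _ _)
  have b2 := (hDs k).trans_le (min_le_right _ _)
  rw [lt_div_iff₀ (by positivity)] at b2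
  have hE := EE_bound (D := D) (w := w) k2 hS.ge
  rw [← hW] at hE
  obtain ⟨M, hM⟩ : ∃ M : ℝ, M = |D k| := ⟨_, rfl⟩
  rw [← hM] at k1 k3 b1 b2 hE
  have e1 : η * M * |W| ≤ |D 0 + D 1 + D 2| * |W| := mul_le_mul_of_nonneg_right k3 hW0.le
  have e2 : M ^ 2 * S + M ^ 3 < η * M * |W| := by
    have h1 : M ^ 3 ≤ M ^ 2 := by
      have : M ^ 2 * M ≤ M ^ 2 * 1 := mul_le_mul_of_nonneg_left b1.le (by positivity)
      calc M ^ 3 = M ^ 2 * M := by ring
        _ ≤ M ^ 2 * 1 := this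
        _ = M ^ 2 := by ring
    have h2 : M * (M * (S + 1)) < M * (η * |W|) := mul_lt_mul_of_pos_left b2 k1
    nlinarith
  have hE0 : 0 < |EE D w| := by linarith
  have hdet : (relMat l p q).det ≠ 0 := by
    intro h0
    have h1 := det_EE (l := l) (χ := χ) hq hD
    have h2 : (fun c => (χ (c + 1) : ℝ) * χ (c + 2) * l c) = w := by funext c; rw [hw]
    rw [h2, h0, Int.cast_zero, zero_mul] at h1
    have hq0 : ∀ c, (q c : ℝ) ≠ 0 := fun c => by
      have := hq c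
      exact_mod_cast (by omega : q c ≠ 0)
    have h3 : EE D w = 0 := by
      rcases mul_eq_zero.1 h1.symm with h | h
      · exact absurd h (mul_ne_zero (mul_ne_zero (hq0 0) (hq0 1)) (hq0 2))
      · exact h
    rw [h3, abs_zero] at hE0
    exact lt_irrefl _ hE0
  apply Nat.finite_of_card_ne_zero
  rw [card_H1 B hb p q hL hdet]
  exact Int.natAbs_ne_zero.2 hdet

/-- Infinitely many surgeries on every link with nonzero linking numbers. -/
theorem many {n : ℕ} {B : Braid n} {base : Fin 3 → Fin n} (hb : B.IsBase base)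
    {l : Fin 3 → ℤ} (hl : ∀ c, l c ≠ 0) (hL : HasLinking B base l) (K : ℕ) :
    ∃ p q : Fin 3 → ℤ, (∀ c, 1 ≤ q c ∧ IsCoprime (p c) (q c)) ∧
      K < Nat.card (Abelianization (B.SurgeryGroup base p q)) ∧
      ∃ (Q : Type) (_ : Group Q) (φ : B.SurgeryGroup base p q →* Q),
        Function.Surjective φ ∧ LeftOrderable Q := by
  have hl' : ∀ c, (l c : ℝ) ≠ 0 := fun c => by exact_mod_cast hl c
  obtain ⟨χ, hχ, hX⟩ : ∃ χ : Fin 3 → ℤ, (∀ c, χ c ≠ 0) ∧ ∑ c, (χ c : ℝ) / l c ≠ 0 := by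
    by_cases h : (1 : ℝ) / l 0 + 1 / l 1 + 1 / l 2 = 0
    · refine ⟨![2, 1, 1], fun c => by fin_cases c <;> simp, ?_⟩
      rw [Fin.sum_univ_three]
      simp only [Matrix.cons_val_zero, Matrix.cons_val_one, Matrix.cons_val]
      push_cast
      have h1 : (2 : ℝ) / l 0 + 1 / l 1 + 1 / l 2 =
          1 / l 0 + (1 / l 0 + 1 / l 1 + 1 / l 2) := by ring
      rw [h1, h, add_zero]
      exact one_div_ne_zero (hl' 0)
    · refine ⟨fun _ => 1, fun c => one_ne_zero, ?_⟩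
      rw [Fin.sum_univ_three]
      push_cast
      exact h
  obtain ⟨δ, hδ0, hδ⟩ := cone_part B base hb l hl hL χ hχ hX (1 / 4) (by norm_num)
  obtain ⟨w, hw⟩ : ∃ w : Fin 3 → ℝ, ∀ c, w c = χ (c + 1) * χ (c + 2) * l c := ⟨_, fun c => rfl⟩
  obtain ⟨W, hW⟩ : ∃ W : ℝ, W = w 0 * w 1 + w 1 * w 2 + w 2 * w 0 := ⟨_, rfl⟩
  have hWne : W ≠ 0 := by rw [hW]; exact W_ne hl hχ hX hw
  have hW1 : 1 ≤ |W| := by
    obtain ⟨z, hz⟩ : ∃ z : ℤ, (z : ℝ) = W := by
      refine ⟨(χ 1 * χ 2 * l 0) * (χ 2 * χ 0 * l 1) + (χ 2 * χ 0 * l 1) * (χ 0 * χ 1 * l 2) +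
        (χ 0 * χ 1 * l 2) * (χ 1 * χ 2 * l 0), ?_⟩
      rw [hW, hw 0, hw 1, hw 2]
      push_cast
      rfl
    rw [← hz] at hWne ⊢
    have h1 : z ≠ 0 := by exact_mod_cast hWne
    have h2 : 1 ≤ |z| := Int.one_le_abs h1
    exact_mod_cast h2
  obtain ⟨S, hS⟩ : ∃ S : ℝ, S = 2 * (|w 0| + |w 1| + |w 2|) := ⟨_, rfl⟩
  have hS0 : 0 ≤ S := by rw [hS]; positivity
  obtain ⟨m, hm⟩ := exists_nat_gt (1 / δ + 4 * (S + 1) + K)
  have hδi : 0 < 1 / δ := by positivity
  have hK0 : (0 : ℝ) ≤ K := Nat.cast_nonneg K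
  have hm1 : (1 : ℝ) < m := by linarith
  have hm0 : (0 : ℝ) < m := by linarith
  have hmδ : 1 / (m : ℝ) < δ := by
    rw [div_lt_iff₀ hm0]
    have h1 : 1 / δ < m := by linarith
    rw [div_lt_iff₀ hδ0] at h1
    linarith
  have hmZ : (1 : ℤ) ≤ m := by
    have : (1 : ℕ) < m := by exact_mod_cast hm1
    omega
  obtain ⟨t, ht⟩ : ∃ t : Fin 3 → ℤ, t = ![-1, 1, 1] := ⟨_, rfl⟩
  obtain ⟨e, he⟩ : ∃ e : Fin 3 → ℤ, e = ![1, 4, 4] := ⟨_, rfl⟩
  have t2 : ∀ c, t c * t c = 1 := by rw [ht]; intro c; fin_cases c <;> rfl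
  have e1 : ∀ c, 1 ≤ e c := by rw [he]; intro c; fin_cases c <;> norm_num
  obtain ⟨Λ, hΛ⟩ : ∃ Λ : Fin 3 → ℤ, ∀ c, Λ c = l (c + 2) * χ (c + 1) + l (c + 1) * χ (c + 2) :=
    ⟨_, fun c => rfl⟩
  obtain ⟨p, hp⟩ : ∃ p : Fin 3 → ℤ, ∀ c, p c = t c - e c * m * χ c * Λ c := ⟨_, fun c => rfl⟩
  obtain ⟨q, hq⟩ : ∃ q : Fin 3 → ℤ, ∀ c, q c = χ c ^ 2 * (e c * m) := ⟨_, fun c => rfl⟩
  have hem : ∀ c, 1 ≤ e c * m := fun c => by nlinarith [e1 c]
  have hq1 : ∀ c, 1 ≤ q c := fun c => by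
    rw [hq]
    have h1 : 1 ≤ χ c ^ 2 := by
      have := hχ c
      have : 0 < χ c ^ 2 := by positivity
      omega
    nlinarith [hem c]
  have hcop : ∀ c, IsCoprime (p c) (q c) := fun c => by
    have h1 : IsCoprime (p c) (e c * m * χ c) := by
      refine ⟨t c, t c * Λ c, ?_⟩
      rw [hp]
      linear_combination t2 c
    have h2 : IsCoprime (p c) ((e c * m * χ c) ^ 2) := h1.pow_right
    refine h2.of_isCoprime_of_dvd_right ⟨e c * m, ?_⟩
    rw [hq]; ring
  obtain ⟨D, hDd⟩ : ∃ D : Fin 3 → ℝ, ∀ c, D c = t c / (e c * m) := ⟨_, fun c => rfl⟩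
  have hD : ∀ c, D c = χ c * (p c / q c * χ c + l (c + 2) * χ (c + 1) + l (c + 1) * χ (c + 2)) := by
    intro c
    have h1 : (χ c : ℝ) ≠ 0 := by exact_mod_cast hχ c
    have h2 : (e c : ℝ) ≠ 0 := by
      have := e1 c
      exact_mod_cast (by omega : e c ≠ 0)
    have h3 : (m : ℝ) ≠ 0 := hm0.ne'
    have h4 : (Λ c : ℝ) = l (c + 2) * χ (c + 1) + l (c + 1) * χ (c + 2) := by
      rw [hΛ]; push_cast; rfl
    rw [add_assoc, ← h4, hDd, hp, hq]
    push_cast
    field_simp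
    ring
  have d0 : D 0 = -(1 / m) := by rw [hDd, ht, he]; simp; ring
  have d1 : D 1 = 1 / (4 * m) := by rw [hDd, ht, he]; simp
  have d2 : D 2 = 1 / (4 * m) := by rw [hDd, ht, he]; simp
  have m4 : (0 : ℝ) < 1 / (4 * m) := by positivity
  have mi : (0 : ℝ) < 1 / m := by positivity
  have m44 : 1 / (4 * (m : ℝ)) = 1 / 4 * (1 / m) := by field_simp
  have ab0 : |D 0| = 1 / m := by rw [d0, abs_neg, abs_of_pos mi]
  have ab1 : |D 1| = 1 / (4 * m) := by rw [d1, abs_of_pos m4]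
  have ab2 : |D 2| = 1 / (4 * m) := by rw [d2, abs_of_pos m4]
  have habs : ∀ c, |D c| ≤ 1 / m := by
    intro c
    fin_cases c
    · exact ab0.le
    · show |D 1| ≤ 1 / m
      rw [ab1, m44]; linarith
    · show |D 2| ≤ 1 / m
      rw [ab2, m44]; linarith
  have hcone : ConeAt (1 / 4) D 0 := by
    constructor
    · show 0 < D 1 * D 2
      rw [d1, d2]; positivity
    · show D 0 * D 1 < 0
      rw [d0, d1]
      have := mul_pos mi m4
      linarith
    · show |D 1| + |D 2| ≤ (1 - 1 / 4) * |D 0|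
      rw [ab0, ab1, ab2, m44]; linarith
    · show 1 / 4 * |D 0| ≤ |D 1|
      rw [ab0, ab1, m44]
    · show 1 / 4 * |D 0| ≤ |D 2|
      rw [ab0, ab2, m44]
  refine ⟨p, q, fun c => ⟨hq1 c, hcop c⟩, ?_,
    hδ p q hq1 D hD (fun c => (habs c).trans_lt hmδ) ⟨0, hcone⟩⟩
  -- the order of the homology group
  have hE := EE_bound (D := D) (w := w) habs hS.ge
  rw [← hW] at hE
  have hsum : |D 0 + D 1 + D 2| = 1 / 2 * (1 / m) := by
    have : D 0 + D 1 + D 2 = -(1 / 2 * (1 / m)) := by rw [d0, d1, d2, m44]; ring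
    rw [this, abs_neg, abs_of_pos (by positivity)]
  rw [hsum] at hE
  obtain ⟨u, hu⟩ : ∃ u : ℝ, u = 1 / (m : ℝ) := ⟨_, rfl⟩
  rw [← hu] at hE mi
  have hum : u * m = 1 := by rw [hu]; field_simp
  have hu1 : u ≤ 1 := by
    rw [hu, div_le_iff₀ hm0]; linarith
  have hE2 : 1 / 4 * u ≤ |EE D w| := by
    have h1 : 1 / 2 * u ≤ 1 / 2 * u * |W| := by
      have : 1 / 2 * u * 1 ≤ 1 / 2 * u * |W| := mul_le_mul_of_nonneg_left hW1 (by positivity)
      linarith
    have h2 : u ^ 3 ≤ u ^ 2 := by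
      have : u ^ 2 * u ≤ u ^ 2 * 1 := mul_le_mul_of_nonneg_left hu1 (by positivity)
      calc u ^ 3 = u ^ 2 * u := by ring
        _ ≤ u ^ 2 * 1 := this
        _ = u ^ 2 := by ring
    have h3 : u ^ 2 * (S + 1) ≤ 1 / 4 * u := by
      have h4 : 4 * (S + 1) ≤ m := by linarith
      have h5 : u * (4 * (S + 1)) ≤ u * m := mul_le_mul_of_nonneg_left h4 mi.le
      rw [hum] at h5
      nlinarith
    nlinarith
  have hdE := det_EE (l := l) (χ := χ) hq1 hD
  have hww : (fun c => (χ (c + 1) : ℝ) * χ (c + 2) * l c) = w := by funext c; rw [hw]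
  rw [hww] at hdE
  have hχ' : ∀ c, (χ c : ℝ) ≠ 0 := fun c => by exact_mod_cast hχ c
  have hdet : ((relMat l p q).det : ℝ) = 16 * (m : ℝ) ^ 3 * EE D w := by
    have hx : ((χ 0 : ℝ) * χ 1 * χ 2) ^ 2 ≠ 0 :=
      pow_ne_zero 2 (mul_ne_zero (mul_ne_zero (hχ' 0) (hχ' 1)) (hχ' 2))
    apply mul_right_cancel₀ hx
    rw [hdE]
    have q0 : (q 0 : ℝ) = χ 0 ^ 2 * m := by rw [hq, he]; simp
    have q1 : (q 1 : ℝ) = χ 1 ^ 2 * (4 * m) := by rw [hq, he]; simp
    have q2 : (q 2 : ℝ) = χ 2 ^ 2 * (4 * m) := by rw [hq, he]; simp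
    rw [q0, q1, q2]
    ring
  have hbig : (K : ℝ) < |((relMat l p q).det : ℝ)| := by
    rw [hdet, abs_mul, abs_of_pos (by positivity : (0 : ℝ) < 16 * (m : ℝ) ^ 3)]
    have h1 : 16 * (m : ℝ) ^ 3 * (1 / 4 * u) ≤ 16 * (m : ℝ) ^ 3 * |EE D w| :=
      mul_le_mul_of_nonneg_left hE2 (by positivity)
    have h2 : 16 * (m : ℝ) ^ 3 * (1 / 4 * u) = 4 * (m : ℝ) ^ 2 * (u * m) := by ring
    rw [h2, hum, mul_one] at h1
    have h3 : (K : ℝ) < m := by linarith
    nlinarith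
  have hne : (relMat l p q).det ≠ 0 := by
    intro h0
    rw [h0] at hbig
    simp at hbig
    linarith
  rw [card_H1 B hb p q hL hne]
  have h5 : ((relMat l p q).det.natAbs : ℝ) = |((relMat l p q).det : ℝ)| := by
    rw [Nat.cast_natAbs, Int.cast_abs]
  rw [← h5] at hbig
  exact_mod_cast hbig

/-- Let the closure of the braid `B` be a link with three components with nonzero linking numbers
`l c` (of the components `c + 1` and `c + 2`).

(1) Let `χ c` be nonzero integers with `∑ χ c / l c ≠ 0`.  For every `η > 0` there is a `δ > 0`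
such that, for all rational slopes `p c / q c` for which the numbers
`D c = χ c (p c / q c χ c + l (c + 2) χ (c + 1) + l (c + 1) χ (c + 2))` are less than `δ` in
absolute value and, for some `k`, the number `D k` has the opposite sign of the two other ones, the
sum of the absolute values of the two other ones is at most `(1 - η) |D k|`, and each of them is at
least `η |D k|`, the first homology group of the surgery is finite and its fundamental group has a
left-orderable quotient.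

(2) For every `K` there are slopes `p c / q c` in lowest terms such that the first homology group
of the surgery is finite and has more than `K` elements, and the fundamental group has a
left-orderable quotient. -/
theorem result {n : ℕ} (B : Braid n) (base : Fin 3 → Fin n) (hb : B.IsBase base)
    (l : Fin 3 → ℤ) (hl : ∀ c, l c ≠ 0) (hL : HasLinking B base l) :
    (∀ χ : Fin 3 → ℤ, (∀ c, χ c ≠ 0) → ∑ c, (χ c : ℝ) / l c ≠ 0 → ∀ η : ℝ, 0 < η →
      ∃ δ : ℝ, 0 < δ ∧ ∀ p q : Fin 3 → ℤ, (∀ c, 1 ≤ q c) → ∀ D : Fin 3 → ℝ,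
        (∀ c, D c = χ c * (p c / q c * χ c + l (c + 2) * χ (c + 1) + l (c + 1) * χ (c + 2))) →
        (∀ c, |D c| < δ) → (∃ k, ConeAt η D k) →
        Finite (Abelianization (B.SurgeryGroup base p q)) ∧
          ∃ (Q : Type) (_ : Group Q) (φ : B.SurgeryGroup base p q →* Q),
            Function.Surjective φ ∧ LeftOrderable Q) ∧
    ∀ K : ℕ, ∃ p q : Fin 3 → ℤ, (∀ c, 1 ≤ q c ∧ IsCoprime (p c) (q c)) ∧
      K < Nat.card (Abelianization (B.SurgeryGroup base p q)) ∧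
        ∃ (Q : Type) (_ : Group Q) (φ : B.SurgeryGroup base p q →* Q),
          Function.Surjective φ ∧ LeftOrderable Q := by
  refine ⟨fun χ hχ hX η hη => ?_, fun K => many hb hl hL K⟩
  obtain ⟨δ1, h1, H1⟩ := cone_part B base hb l hl hL χ hχ hX η hη
  obtain ⟨δ2, h2, H2⟩ := finite_part hb hl hL hχ hX hη
  exact ⟨min δ1 δ2, lt_min h1 h2, fun p q hq D hD hDs hk =>
    ⟨H2 p q hq D hD (fun c => (hDs c).trans_le (min_le_right _ _)) hk,
      H1 p q hq D hD (fun c => (hDs c).trans_le (min_le_left _ _)) hk⟩⟩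

end Pool.Agent.Results.MP_3d425c_gt.SurgeriesNearDegenerateFramings
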